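import Pool.Agent.H583R2.AD.Defs
import Pool.Agent.H628R3.RO.D2

/-! Task AC: locality of acceptance, and numbers. -/

namespace Pool.Agent.H583R2.AD

open MeasureTheory Pool.Agent.NPC Pool.Agent.H628R3.RO
open Pool.Agent.H583R2.LH (yp FLoc)

theorem floc_Acc1 (V : Alg) (q : Polynomial ℕ) (z : List Bool) : FLoc {A | Acc1 V q z A} := by
  obtain ⟨qb, hq⟩ := V.out_congr
  refine ⟨qb.eval (2 * z.length + 1 + 2 ^ q.eval z.length) + 1, fun A A' h => ?_⟩
  show Acc1 V q z A ↔ Acc1 V q z A'
  unfold Acc1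
  refine exists_congr fun w => and_congr_right fun hw => ?_
  rw [hq A A' (pairBits z w) (2 * z.length + 1 + 2 ^ q.eval z.length)]
  · rw [length_pairBits]
    omega
  · intro x hx
    exact h x (Nat.lt_succ_of_le hx)

theorem floc_Wit (V : Alg) (p : Polynomial ℕ) (z : List Bool) : FLoc {A | Wit V p z A} := by
  obtain ⟨qb, hq⟩ := V.out_congr
  refine ⟨qb.eval (2 * z.length + 1 + p.eval z.length) + 1, fun A A' h => ?_⟩
  show Wit V p z A ↔ Wit V p z A'
  unfold Wit
  refine exists_congr fun w => and_congr_right fun hw => ?_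
  rw [hq A A' (pairBits z w) (2 * z.length + 1 + p.eval z.length)]
  · rw [length_pairBits]
    omega
  · intro x hx
    exact h x (Nat.lt_succ_of_le hx)

namespace AC

theorem poly_bd (p : Polynomial ℕ) : ∃ a d : ℕ, ∀ m : ℕ, 1 ≤ m → p.eval m ≤ a * m ^ d := by
  induction p using Polynomial.induction_on' with
  | add p q hp hq =>
    obtain ⟨a, d, h1⟩ := hp
    obtain ⟨b, e, h2⟩ := hq
    refine ⟨a + b, d + e, fun m hm => ?_⟩
    rw [Polynomial.eval_add, add_mul]
    have h3 : m ^ d ≤ m ^ (d + e) := Nat.pow_le_pow_right hm (Nat.le_add_right _ _)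
    have h4 : m ^ e ≤ m ^ (d + e) := Nat.pow_le_pow_right hm (Nat.le_add_left _ _)
    exact add_le_add ((h1 m hm).trans (Nat.mul_le_mul_left _ h3))
      ((h2 m hm).trans (Nat.mul_le_mul_left _ h4))
  | monomial k a =>
    refine ⟨a, k, fun m _ => ?_⟩
    rw [Polynomial.eval_monomial]

theorem poly_small (q : Polynomial ℕ) (N : ℕ) :
    ∃ n ≥ N, 1 ≤ n ∧ 8 * q.eval n ≤ 2 ^ n := by
  have h1 : Filter.Tendsto (fun n : ℕ => ((q.eval n : ℕ) : ℝ) / 2 ^ n) Filter.atTop (nhds 0) := by
    have h2 : ∀ q : Polynomial ℕ,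
        Filter.Tendsto (fun n : ℕ => ((q.eval n : ℕ) : ℝ) / 2 ^ n) Filter.atTop (nhds 0) := by
      intro q
      induction q using Polynomial.induction_on' with
      | add p q hp hq =>
        have h := hp.add hq
        rw [add_zero] at h
        refine h.congr fun n => ?_
        rw [Polynomial.eval_add]
        push_cast
        rw [add_div]
      | monomial k a =>
        have h := (tendsto_pow_const_div_const_pow_of_one_lt k (one_lt_two (α := ℝ))).const_mul (a : ℝ)
        rw [mul_zero] at h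
        refine h.congr fun n => ?_
        rw [Polynomial.eval_monomial]
        push_cast
        rw [mul_div_assoc]
    exact h2 q
  have h3 := h1.eventually (ge_mem_nhds (show (0 : ℝ) < 1 / 8 by norm_num))
  obtain ⟨n, hn⟩ := ((h3.and (Filter.eventually_ge_atTop N)).and
    (Filter.eventually_ge_atTop 1)).exists
  refine ⟨n, hn.1.2, hn.2, ?_⟩
  have h4 := hn.1.1
  have h5 : (0 : ℝ) < 2 ^ n := by positivity
  rw [div_le_iff₀ h5] at h4
  have h6 : ((8 * q.eval n : ℕ) : ℝ) ≤ ((2 ^ n : ℕ) : ℝ) := by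
    push_cast
    linarith
  exact_mod_cast h6

theorem sq_le (m : ℕ) (hm : 4 ≤ m) : m * m ≤ 2 ^ m := by
  induction m, hm using Nat.le_induction with
  | base => norm_num
  | succ m hm ih =>
    rw [pow_succ]
    nlinarith

end AC

/-- accepting computations, exponential time -/
theorem touch_Acc1 (V : Alg) (q : Polynomial ℕ) : ∃ Q : Polynomial ℕ, ∀ (z : List Bool)
    (A : Oracle), Acc1 V q z A → ∃ T : Finset (List Bool), T.card ≤ 2 ^ Q.eval z.length ∧
      ∀ A' : Oracle, (∀ u ∈ T, A' u = A u) → Acc1 V q z A' := by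
  obtain ⟨a, d, had⟩ := AC.poly_bd V.p
  obtain ⟨qb, hV⟩ := V.out_local
  refine ⟨Polynomial.C a + (Polynomial.C 2 * Polynomial.X + Polynomial.C 2 + q) * Polynomial.C d,
    fun z A hA => ?_⟩
  obtain ⟨c, hc, hc'⟩ := hA
  obtain ⟨T, hT1, -, hT2⟩ := hV A (pairBits z c)
  refine ⟨T, ?_, fun A' h => ⟨c, hc, by rw [hT2 A' h, hc']⟩⟩
  have hl : (pairBits z c).length = 2 * z.length + 1 + c.length := length_pairBits z c
  have h1 : (pairBits z c).length ≤ 2 ^ (2 * z.length + 2 + q.eval z.length) := by
    have e1 : 2 * z.length + 1 < 2 ^ (2 * z.length + 1) := Nat.lt_two_pow_self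
    have e2 : 2 ^ (2 * z.length + 1) ≤ 2 ^ (2 * z.length + 1 + q.eval z.length) :=
      Nat.pow_le_pow_right (by norm_num) (Nat.le_add_right _ _)
    have e3 : 2 ^ q.eval z.length ≤ 2 ^ (2 * z.length + 1 + q.eval z.length) :=
      Nat.pow_le_pow_right (by norm_num) (Nat.le_add_left _ _)
    have e4 : 2 ^ (2 * z.length + 2 + q.eval z.length) =
        2 * 2 ^ (2 * z.length + 1 + q.eval z.length) := by
      have e5 : 2 * z.length + 2 + q.eval z.length =
          (2 * z.length + 1 + q.eval z.length) + 1 := by omega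
      rw [e5, pow_succ']
    omega
  refine hT1.trans ((had _ (by omega)).trans ?_)
  simp only [Polynomial.eval_add, Polynomial.eval_mul, Polynomial.eval_C, Polynomial.eval_X]
  rw [pow_add, pow_mul]
  exact Nat.mul_le_mul Nat.lt_two_pow_self.le (Nat.pow_le_pow_left h1 d)

/-- accepting computations, polynomial time -/
theorem touch_Wit (V : Alg) (p : Polynomial ℕ) : ∃ Q : Polynomial ℕ, ∀ (z : List Bool)
    (A : Oracle), Wit V p z A → ∃ T : Finset (List Bool), T.card ≤ Q.eval z.length ∧
      ∀ A' : Oracle, (∀ u ∈ T, A' u = A u) → Wit V p z A' := by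
  obtain ⟨qb, hV⟩ := V.out_local
  refine ⟨V.p.comp (Polynomial.C 2 * Polynomial.X + Polynomial.C 1 + p), fun z A hA => ?_⟩
  obtain ⟨c, hc, hc'⟩ := hA
  obtain ⟨T, hT1, -, hT2⟩ := hV A (pairBits z c)
  refine ⟨T, ?_, fun A' h => ⟨c, hc, by rw [hT2 A' h, hc']⟩⟩
  refine hT1.trans ?_
  rw [Polynomial.eval_comp]
  apply eval_mono
  rw [length_pairBits]
  simp only [Polynomial.eval_add, Polynomial.eval_mul, Polynomial.eval_C, Polynomial.eval_X]
  omega

/-- numbers, exponential time -/
theorem num1 (Q : Polynomial ℕ) (N : ℕ) : ∃ n ≥ N, 6 ≤ n ∧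
    8 * 2 ^ Q.eval (3 * n + 5) ≤ 2 ^ 2 ^ n := by
  obtain ⟨n, hn, hn1, h⟩ := AC.poly_small
    (Q.comp (Polynomial.C 3 * Polynomial.X + Polynomial.C 5) + Polynomial.C 3) (max N 6)
  refine ⟨n, (le_max_left _ _).trans hn, (le_max_right _ _).trans hn, ?_⟩
  rw [Polynomial.eval_add, Polynomial.eval_comp, Polynomial.eval_C, Polynomial.eval_add,
    Polynomial.eval_mul, Polynomial.eval_C, Polynomial.eval_X, Polynomial.eval_C] at h
  have e : 8 * 2 ^ Q.eval (3 * n + 5) = 2 ^ (Q.eval (3 * n + 5) + 3) := by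
    rw [pow_add]
    ring
  rw [e]
  exact Nat.pow_le_pow_right (by norm_num) (by omega)

/-- numbers, polynomial time -/
theorem num2 (Q : Polynomial ℕ) (k N : ℕ) : ∃ n ≥ N, 1 ≤ n ∧ 4 ≤ rk (k + 7) n ∧
    8 * Q.eval (8 * (n + rk (k + 7) n + 4)) ≤ 2 ^ n ∧
    k * Nat.log 2 (n + 1 + (rk (k + 7) n + 2)) + 6 ≤ rk (k + 7) n := by
  obtain ⟨n, hn, hn1, h⟩ := AC.poly_small
    (Q.comp (Polynomial.C 8 * (Polynomial.X + Polynomial.C (k + 7) * Polynomial.X +
      Polynomial.C 4))) (max N (2 ^ (k + 9)))
  have hs : k + 9 < n.size := Nat.lt_size.2 ((le_max_right _ _).trans hn)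
  have hsn : n.size ≤ n := Nat.size_le.2 Nat.lt_two_pow_self
  have hns : n < 2 ^ n.size := Nat.lt_size_self n
  have hrk : rk (k + 7) n = (k + 7) * n.size := rfl
  refine ⟨n, (le_max_left _ _).trans hn, hn1, ?_, ?_, ?_⟩
  · rw [hrk]
    nlinarith
  · rw [Polynomial.eval_comp, Polynomial.eval_mul, Polynomial.eval_C, Polynomial.eval_add,
      Polynomial.eval_add, Polynomial.eval_mul, Polynomial.eval_C, Polynomial.eval_X,
      Polynomial.eval_C] at h
    refine le_trans (Nat.mul_le_mul_left 8 (eval_mono Q ?_)) h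
    have h1 : (k + 7) * n.size ≤ (k + 7) * n := Nat.mul_le_mul_left _ hsn
    rw [hrk]
    omega
  · have h1 : n.size * n.size ≤ 2 ^ n.size := AC.sq_le _ (by omega)
    have h2 : 3 + (k + 7) * n.size ≤ n.size * n.size := by nlinarith
    have h3 : n + 1 + ((k + 7) * n.size + 2) < 2 ^ (n.size + 1) := by
      rw [pow_succ]
      omega
    have h4 : Nat.log 2 (n + 1 + ((k + 7) * n.size + 2)) < n.size + 1 :=
      Nat.log_lt_of_lt_pow (by omega) h3
    rw [hrk]
    have h5 : k * Nat.log 2 (n + 1 + ((k + 7) * n.size + 2)) ≤ k * n.size :=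
      Nat.mul_le_mul_left _ (by omega)
    have h6 : (k + 7) * n.size = k * n.size + 7 * n.size := by ring
    omega

/-- the number of short strings -/
theorem short (a : ℕ) : ∃ W : Finset (List Bool), (∀ w, w ∈ W ↔ w.length ≤ a) ∧
    W.card ≤ 2 ^ (a + 1) := by
  have key : ∀ a : ℕ, ∃ W : Finset (List Bool), (∀ w, w ∈ W ↔ w.length ≤ a) ∧
      W.card + 1 ≤ 2 ^ (a + 1) := by
    intro a
    induction a with
    | zero =>
      refine ⟨{[]}, fun w => ?_, by simp⟩
      rw [Finset.mem_singleton, Nat.le_zero, List.length_eq_zero_iff]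
    | succ a ih =>
      obtain ⟨W, hW, hc⟩ := ih
      refine ⟨insert [] (W.image (fun w => false :: w) ∪ W.image (fun w => true :: w)),
        fun w => ?_, ?_⟩
      · rw [Finset.mem_insert, Finset.mem_union, Finset.mem_image, Finset.mem_image]
        constructor
        · rintro (h | ⟨v, hv, h⟩ | ⟨v, hv, h⟩)
          · rw [h]
            simp
          · rw [← h, List.length_cons]
            have := (hW v).1 hv
            omega
          · rw [← h, List.length_cons]
            have := (hW v).1 hv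
            omega
        · intro h
          rcases w with _ | ⟨b, w⟩
          · left; rfl
          · rw [List.length_cons] at h
            right
            cases b
            · left
              exact ⟨w, (hW w).2 (by omega), rfl⟩
            · right
              exact ⟨w, (hW w).2 (by omega), rfl⟩
      · have h1 := Finset.card_insert_le ([] : List Bool)
          (W.image (fun w => false :: w) ∪ W.image (fun w => true :: w))
        have h2 := Finset.card_union_le (W.image (fun w => false :: w))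
          (W.image (fun w => true :: w))
        have h3 : (W.image (fun w => false :: w)).card ≤ W.card := Finset.card_image_le
        have h4 : (W.image (fun w => true :: w)).card ≤ W.card := Finset.card_image_le
        rw [pow_succ]
        omega
  obtain ⟨W, h1, h2⟩ := key a
  exact ⟨W, h1, by omega⟩

end Pool.Agent.H583R2.AD
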