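import Pool.Agent.H583R2.AD.Cnt

/-! Task RT: from `k` to `k + 1` hidden strings. -/

namespace Pool.Agent.H583R2.AD

open MeasureTheory Pool.Agent.NPC Pool.Agent.H628R3.RO
open Pool.Agent.H583R2.LH (yp FLoc)
open Pool.Agent.H583R2.LH.FW (Ln mem_Ln card_Ln)

namespace RT

private theorem meas {S : Set Oracle} (h : FLoc S) : MeasurableSet S := by
  obtain ⟨N, hN⟩ := h
  exact measurableSet_of_loc (List.finite_length_lt Bool N) hN

private theorem inter {S T : Set Oracle} (h : FLoc S) (h' : FLoc T) : FLoc (S ∩ T) := by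
  obtain ⟨N, hN⟩ := h
  obtain ⟨N', hN'⟩ := h'
  refine ⟨max N N', fun A A' hA => ?_⟩
  have h1 := hN A A' fun x hx => hA x (show x.length < _ from lt_of_lt_of_le hx (le_max_left _ _))
  have h2 := hN' A A' fun x hx => hA x (show x.length < _ from lt_of_lt_of_le hx (le_max_right _ _))
  rw [Set.mem_inter_iff, Set.mem_inter_iff, h1, h2]

private theorem union {S T : Set Oracle} (h : FLoc S) (h' : FLoc T) : FLoc (S ∪ T) := by
  obtain ⟨N, hN⟩ := h
  obtain ⟨N', hN'⟩ := h'
  refine ⟨max N N', fun A A' hA => ?_⟩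
  have h1 := hN A A' fun x hx => hA x (show x.length < _ from lt_of_lt_of_le hx (le_max_left _ _))
  have h2 := hN' A A' fun x hx => hA x (show x.length < _ from lt_of_lt_of_le hx (le_max_right _ _))
  rw [Set.mem_union, Set.mem_union, h1, h2]

private theorem compl {S : Set Oracle} (h : FLoc S) : FLoc Sᶜ := by
  obtain ⟨N, hN⟩ := h
  exact ⟨N, fun A A' hA => not_congr (hN A A' hA)⟩

private theorem fplant {S : Set Oracle} (h : FLoc S) (F : Finset (List Bool)) :
    FLoc {A | plant F A ∈ S} := by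
  obtain ⟨N, hN⟩ := h
  refine ⟨N, fun A A' hA => hN _ _ fun x hx => ?_⟩
  unfold plant
  rw [hA x hx]

private theorem hd_eq {t r : ℕ} {y : List Bool} (hy : y.length = t + 2 * r) :
    {A : Oracle | ∀ x ∈ J t y, A x = true} = {A | y ∈ Hd t r A} := by
  ext A
  simp only [J, Finset.mem_image, Finset.mem_range, Set.mem_ofPred_eq, Hd]
  constructor
  · intro h
    exact ⟨hy, fun i hi => h _ ⟨i, hi, rfl⟩⟩
  · rintro ⟨_, h⟩ _ ⟨i, hi, rfl⟩
    exact h i hi

private theorem fHd (t r : ℕ) (y : List Bool) : FLoc {A | y ∈ Hd t r A} := by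
  by_cases hy : y.length = t + 2 * r
  · rw [← hd_eq hy]
    refine ⟨((J t y).sup List.length) + 1, fun A A' hA => ?_⟩
    refine forall₂_congr fun x hx => ?_
    rw [hA x]
    exact Nat.lt_succ_of_le (Finset.le_sup (f := List.length) hx)
  · have : {A | y ∈ Hd t r A} = ∅ := by
      ext A
      simp only [Hd, Set.mem_ofPred_eq, Set.mem_empty_iff_false, iff_false, not_and]
      intro h
      exact absurd h hy
    rw [this]
    exact ⟨0, fun A A' _ => Iff.rfl⟩

end RT

open RT

/-- planting one string -/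
theorem prob_step {t r k : ℕ} {S O : Set Oracle} (hS : Loc {q | q.length < t} S) (hO : FLoc O)
    {y : List Bool} (hy : y.length = t + 2 * r) :
    (1 - (1 / 2) ^ t) * prob (S ∩ O ∩ {A | X t r A = k + 1} ∩ {A | y ∈ Hd t r A}) =
      (1 / 2) ^ t * prob (S ∩ {A | plant (J t y) A ∈ O} ∩ {A | X t r A = k} ∩
        {A | y ∉ Hd t r A}) := by
  classical
  have hSf : FLoc S := ⟨t, hS⟩
  have hE : MeasurableSet (S ∩ O ∩ {A | X t r A = k + 1}) :=
    meas (inter (inter hSf hO) (floc_X t r (fun m => m = k + 1)))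
  have h1 := prob_plant hE (J t y)
  rw [hd_eq (r := r) hy, card_J] at h1
  have hsplit : prob (plant (J t y) ⁻¹' (S ∩ O ∩ {A | X t r A = k + 1})) =
      prob (S ∩ O ∩ {A | X t r A = k + 1} ∩ {A | y ∈ Hd t r A}) +
      prob (S ∩ {A | plant (J t y) A ∈ O} ∩ {A | X t r A = k} ∩ {A | y ∉ Hd t r A}) := by
    have hHm : MeasurableSet {A | y ∈ Hd t r A} := meas (fHd t r y)
    have h2 := measureReal_inter_add_sdiff (μ := randomOracle)
      (s := plant (J t y) ⁻¹' (S ∩ O ∩ {A | X t r A = k + 1})) hHm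
    have hSpl : ∀ A : Oracle, plant (J t y) A ∈ S ↔ A ∈ S := by
      intro A
      refine hS _ _ fun x hx => ?_
      exact plant_short hy hx
    have e1 : plant (J t y) ⁻¹' (S ∩ O ∩ {A | X t r A = k + 1}) ∩ {A | y ∈ Hd t r A} =
        S ∩ O ∩ {A | X t r A = k + 1} ∩ {A | y ∈ Hd t r A} := by
      ext A
      simp only [Set.mem_inter_iff, Set.mem_preimage, Set.mem_ofPred_eq]
      refine and_congr_left fun h => ?_
      rw [plant_of_mem h]
    have e2 : plant (J t y) ⁻¹' (S ∩ O ∩ {A | X t r A = k + 1}) \ {A | y ∈ Hd t r A} =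
        S ∩ {A | plant (J t y) A ∈ O} ∩ {A | X t r A = k} ∩ {A | y ∉ Hd t r A} := by
      ext A
      simp only [Set.mem_sdiff, Set.mem_inter_iff, Set.mem_preimage, Set.mem_ofPred_eq]
      refine and_congr_left fun h => ?_
      rw [X_plant hy h, hSpl]
      constructor
      · rintro ⟨⟨a, b⟩, c⟩
        exact ⟨⟨a, b⟩, by omega⟩
      · rintro ⟨⟨a, b⟩, c⟩
        exact ⟨⟨a, b⟩, by omega⟩
    rw [e1, e2] at h2
    unfold prob
    rw [h2]
  rw [hsplit] at h1
  rw [Set.inter_comm] at h1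
  linarith [h1]

theorem ratio {t r k : ℕ} {S : Set Oracle} (hS : Loc {q | q.length < t} S) :
    (1 - (1 / 2) ^ t) * (k + 1) * prob (S ∩ {A | X t r A = k + 1}) =
      (1 / 2) ^ t * (2 ^ (t + 2 * r) - k) * prob (S ∩ {A | X t r A = k}) := by
  classical
  have hSf : FLoc S := ⟨t, hS⟩
  have hU : FLoc (Set.univ : Set Oracle) := ⟨0, fun _ _ _ => Iff.rfl⟩
  have h1 := sum_Hd t r (k + 1) hSf
  have h2 := sum_not_Hd t r k hSf
  have h3 : (1 - (1 / 2 : ℝ) ^ t) *
      ∑ y ∈ Ln (t + 2 * r), prob (S ∩ {A | X t r A = k + 1} ∩ {A | y ∈ Hd t r A}) =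
      (1 / 2) ^ t * ∑ y ∈ Ln (t + 2 * r), prob (S ∩ {A | X t r A = k} ∩ {A | y ∉ Hd t r A}) := by
    rw [Finset.mul_sum, Finset.mul_sum]
    refine Finset.sum_congr rfl fun y hy => ?_
    have h4 := prob_step (k := k) hS hU (mem_Ln.1 hy)
    simp only [Set.inter_univ, Set.mem_univ] at h4
    have h5 : ({A | True} : Set Oracle) = Set.univ := rfl
    simpa [Set.inter_univ] using h4
  rw [h1, h2] at h3
  push_cast at h3
  linarith [h3]

theorem step {t r k Q : ℕ} {S G O : Set Oracle} (hS : Loc {q | q.length < t} S)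
    (hG : FLoc G) (hO : FLoc O)
    (h : ∀ A ∈ G ∪ O, X t r A = k → ∃ T : Finset (List Bool), T.card ≤ Q ∧
      ∀ y : List Bool, y.length = t + 2 * r → y ∉ T → y ∉ Hd t r A → plant (J t y) A ∈ O) :
    (1 / 2) ^ t * (2 ^ (t + 2 * r) - k - Q) * prob (S ∩ (G ∪ O) ∩ {A | X t r A = k}) ≤
      (1 - (1 / 2) ^ t) * (k + 1) * prob (S ∩ O ∩ {A | X t r A = k + 1}) := by
  classical
  have hSf : FLoc S := ⟨t, hS⟩
  have h1 := sum_Hd t r (k + 1) (inter hSf hO)
  set F : List Bool → Set Oracle := fun y =>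
    S ∩ {A | plant (J t y) A ∈ O} ∩ {A | X t r A = k} ∩ {A | y ∉ Hd t r A} with hF
  set E : Set Oracle := S ∩ (G ∪ O) ∩ {A | X t r A = k} with hE
  have h3 : (1 - (1 / 2 : ℝ) ^ t) *
      ∑ y ∈ Ln (t + 2 * r), prob (S ∩ O ∩ {A | X t r A = k + 1} ∩ {A | y ∈ Hd t r A}) =
      (1 / 2) ^ t * ∑ y ∈ Ln (t + 2 * r), prob (F y) := by
    rw [Finset.mul_sum, Finset.mul_sum]
    exact Finset.sum_congr rfl fun y hy => prob_step hS hO (mem_Ln.1 hy)
  have hFm : ∀ y, MeasurableSet (F y) := fun y =>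
    meas (inter (inter (inter hSf (fplant hO _)) (floc_X t r (fun m => m = k)))
      (compl (fHd t r y)))
  have hEm : MeasurableSet E :=
    meas (inter (inter hSf (union hG hO)) (floc_X t r (fun m => m = k)))
  -- the main inequality
  have key : (2 ^ (t + 2 * r) - k - Q : ℝ) * prob E ≤ ∑ y ∈ Ln (t + 2 * r), prob (F y) := by
    have e1 : ∑ y ∈ Ln (t + 2 * r), prob (F y) =
        ∫ A, ∑ y ∈ Ln (t + 2 * r), (F y).indicator (fun _ => (1 : ℝ)) A ∂randomOracle := by
      rw [integral_finsetSum]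
      · refine Finset.sum_congr rfl fun y _ => ?_
        rw [integral_indicator_const _ (hFm y)]
        simp [prob]
      · intro y _
        exact (integrable_const (1 : ℝ)).indicator (hFm y)
    have e2 : (2 ^ (t + 2 * r) - k - Q : ℝ) * prob E =
        ∫ A, E.indicator (fun _ => (2 ^ (t + 2 * r) - k - Q : ℝ)) A ∂randomOracle := by
      rw [integral_indicator_const _ hEm]
      simp [prob, mul_comm]
    rw [e1, e2]
    refine integral_mono ((integrable_const _).indicator hEm)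
      (integrable_finsetSum _ fun y _ => (integrable_const (1 : ℝ)).indicator (hFm y)) ?_
    intro A
    show E.indicator (fun _ => (2 ^ (t + 2 * r) - k - Q : ℝ)) A ≤
      ∑ y ∈ Ln (t + 2 * r), (F y).indicator (fun _ => (1 : ℝ)) A
    by_cases hA : A ∈ E
    · rw [Set.indicator_of_mem hA]
      obtain ⟨⟨hAS, hAG⟩, hAX⟩ := hA
      obtain ⟨T, hTc, hT⟩ := h A hAG hAX
      have hsum : ∑ y ∈ Ln (t + 2 * r), (F y).indicator (fun _ => (1 : ℝ)) A =
          (((Ln (t + 2 * r)).filter fun y => A ∈ F y).card : ℝ) := by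
        rw [Finset.card_filter]
        push_cast
        refine Finset.sum_congr rfl fun y _ => ?_
        by_cases hy : A ∈ F y
        · rw [Set.indicator_of_mem hy, if_pos hy]
        · rw [Set.indicator_of_notMem hy, if_neg hy]
      rw [hsum]
      have hsub : Ln (t + 2 * r) ⊆ ((Ln (t + 2 * r)).filter fun y => A ∈ F y) ∪
          (T ∪ (Hd_finite t r A).toFinset) := by
        intro y hy
        by_cases h1 : y ∈ T
        · exact Finset.mem_union_right _ (Finset.mem_union_left _ h1)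
        by_cases h2 : y ∈ Hd t r A
        · exact Finset.mem_union_right _ (Finset.mem_union_right _
            ((Hd_finite t r A).mem_toFinset.2 h2))
        · refine Finset.mem_union_left _ (Finset.mem_filter.2 ⟨hy, ?_⟩)
          exact ⟨⟨⟨hAS, hT y (mem_Ln.1 hy) h1 h2⟩, hAX⟩, h2⟩
      have hc1 := Finset.card_le_card hsub
      have hc2 := Finset.card_union_le ((Ln (t + 2 * r)).filter fun y => A ∈ F y)
        (T ∪ (Hd_finite t r A).toFinset)
      have hc3 := Finset.card_union_le T (Hd_finite t r A).toFinset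
      have hc4 : ((Hd_finite t r A).toFinset).card = k := by
        rw [← Set.ncard_eq_toFinset_card _ (Hd_finite t r A)]
        exact hAX
      rw [card_Ln] at hc1
      have hc5 : 2 ^ (t + 2 * r) ≤ ((Ln (t + 2 * r)).filter fun y => A ∈ F y).card + Q + k := by
        omega
      have hc6 : (2 ^ (t + 2 * r) : ℝ) ≤
          (((Ln (t + 2 * r)).filter fun y => A ∈ F y).card : ℝ) + Q + k := by
        exact_mod_cast hc5
      linarith
    · rw [Set.indicator_of_notMem hA]
      refine Finset.sum_nonneg fun y _ => ?_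
      exact Set.indicator_nonneg (fun _ _ => zero_le_one) _
  rw [h1] at h3
  push_cast at h3
  have hpos : (0 : ℝ) ≤ (1 / 2) ^ t := by positivity
  have h6 := mul_le_mul_of_nonneg_left key hpos
  calc (1 / 2 : ℝ) ^ t * (2 ^ (t + 2 * r) - k - Q) * prob E
      = (1 / 2) ^ t * ((2 ^ (t + 2 * r) - k - Q) * prob E) := by ring
    _ ≤ (1 / 2) ^ t * ∑ y ∈ Ln (t + 2 * r), prob (F y) := h6
    _ = (1 - (1 / 2) ^ t) * ((k + 1) * prob (S ∩ O ∩ {A | X t r A = k + 1})) := h3.symm
    _ = _ := by ring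

end Pool.Agent.H583R2.AD
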