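import Pool.Agent.H583R2.AD.Cnt
import Pool.Agent.H583R2.AD.Rat

/-! Task CH: the number of hidden strings is close to its mean. -/

namespace Pool.Agent.H583R2.AD

open MeasureTheory Pool.Agent.NPC Pool.Agent.H628R3.RO
open Pool.Agent.H583R2.LH (yp FLoc)
open Pool.Agent.H583R2.LH.FW (Ln)

namespace CH

theorem meas_floc {S : Set Oracle} (h : FLoc S) : MeasurableSet S := by
  obtain ⟨N, hN⟩ := h
  exact measurableSet_of_loc (List.finite_length_lt Bool N) hN

theorem X_le (t r : ℕ) (A : Oracle) : X t r A ≤ 2 ^ (t + 2 * r) := by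
  unfold X
  rw [← LH.FW.card_Ln, ← Set.ncard_coe_finset]
  apply Set.ncard_le_ncard _ (Ln _).finite_toSet
  intro y hy
  rw [Finset.mem_coe, LH.FW.mem_Ln]
  exact hy.1

theorem meas_X (t r k : ℕ) : MeasurableSet {A | X t r A = k} :=
  meas_floc (floc_X t r (fun n => n = k))

theorem decomp (t r : ℕ) {E : Set Oracle} (hE : MeasurableSet E) :
    prob E = ∑ k ∈ Finset.range (2 ^ (t + 2 * r) + 1), prob (E ∩ {A | X t r A = k}) := by
  unfold prob
  rw [← measureReal_biUnion_finset]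
  · congr 1
    ext A
    simp only [Set.mem_iUnion, Finset.mem_range, Set.mem_inter_iff, Set.mem_ofPred_eq, exists_prop]
    constructor
    · intro h
      exact ⟨X t r A, Nat.lt_succ_of_le (X_le t r A), h, rfl⟩
    · rintro ⟨k, _, h, _⟩
      exact h
  · intro i _ j _ hij
    rw [Function.onFun, Set.disjoint_left]
    rintro A ⟨_, h1⟩ ⟨_, h2⟩
    exact hij (h1.symm.trans h2)
  · intro k _
    exact hE.inter (meas_X t r k)

theorem moments (b : ℕ → ℝ) (N : ℕ) (p : ℝ)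
    (h : ∀ k : ℕ, (1 - p) * (k + 1) * b (k + 1) = p * (N - k) * b k) (h0 : b (N + 1) = 0) :
    ∑ k ∈ Finset.range (N + 1), ((k : ℝ) - p * N) ^ 2 * b k =
      p * N * (1 - p) * ∑ k ∈ Finset.range (N + 1), b k := by
  have s1 : ∑ k ∈ Finset.range (N + 1), ((k : ℝ) + 1) * b (k + 1) =
      ∑ k ∈ Finset.range (N + 1), (k : ℝ) * b k := by
    have h1 := Finset.sum_range_succ' (fun k : ℕ => (k : ℝ) * b k) (N + 1)
    rw [Finset.sum_range_succ] at h1
    rw [h0] at h1
    push_cast at h1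
    linarith
  have s2 : ∑ k ∈ Finset.range (N + 1), ((k : ℝ) + 1) * k * b (k + 1) =
      ∑ k ∈ Finset.range (N + 1), (k : ℝ) * (k - 1) * b k := by
    have h1 := Finset.sum_range_succ' (fun k : ℕ => (k : ℝ) * (k - 1) * b k) (N + 1)
    rw [Finset.sum_range_succ] at h1
    rw [h0] at h1
    push_cast at h1
    simp only [add_sub_cancel_right] at h1
    linarith
  have e1 : (1 - p) * ∑ k ∈ Finset.range (N + 1), ((k : ℝ) + 1) * b (k + 1) =
      p * (N * ∑ k ∈ Finset.range (N + 1), b k - ∑ k ∈ Finset.range (N + 1), (k : ℝ) * b k) := by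
    rw [Finset.mul_sum, Finset.mul_sum, ← Finset.sum_sub_distrib, Finset.mul_sum]
    apply Finset.sum_congr rfl
    intro k _
    linear_combination h k
  have e2 : (1 - p) * ∑ k ∈ Finset.range (N + 1), ((k : ℝ) + 1) * k * b (k + 1) =
      p * (N * ∑ k ∈ Finset.range (N + 1), (k : ℝ) * b k -
        ∑ k ∈ Finset.range (N + 1), (k : ℝ) * (k - 1) * b k -
        ∑ k ∈ Finset.range (N + 1), (k : ℝ) * b k) := by
    rw [Finset.mul_sum, Finset.mul_sum, ← Finset.sum_sub_distrib, ← Finset.sum_sub_distrib,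
      Finset.mul_sum]
    apply Finset.sum_congr rfl
    intro k _
    linear_combination (k : ℝ) * h k
  have e3 : ∑ k ∈ Finset.range (N + 1), ((k : ℝ) - p * N) ^ 2 * b k =
      ∑ k ∈ Finset.range (N + 1), (k : ℝ) * (k - 1) * b k +
      (1 - 2 * (p * N)) * ∑ k ∈ Finset.range (N + 1), (k : ℝ) * b k +
      (p * N) ^ 2 * ∑ k ∈ Finset.range (N + 1), b k := by
    rw [Finset.mul_sum, Finset.mul_sum, ← Finset.sum_add_distrib, ← Finset.sum_add_distrib]
    apply Finset.sum_congr rfl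
    intro k _
    ring
  rw [s1] at e1
  rw [s2] at e2
  rw [e3]
  generalize ∑ k ∈ Finset.range (N + 1), (k : ℝ) * (k - 1) * b k = E2 at *
  generalize ∑ k ∈ Finset.range (N + 1), (k : ℝ) * b k = E1 at *
  generalize ∑ k ∈ Finset.range (N + 1), b k = B at *
  have h1 : E1 = p * N * B := by linarith
  have h2 : E2 = p * (N - 1) * E1 := by linarith
  rw [h2, h1]
  ring

end CH

theorem cheb {t r : ℕ} (hr : 1 ≤ r) {S : Set Oracle} (hS : Loc {q | q.length < t} S) :
    prob (S ∩ (InI t r)ᶜ) ≤ 1 / 4 * prob S := by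
  classical
  have hSm : MeasurableSet S := measurableSet_of_loc (List.finite_length_lt Bool t) hS
  obtain ⟨N, hN⟩ : ∃ N : ℕ, N = 2 ^ (t + 2 * r) := ⟨_, rfl⟩
  obtain ⟨b, hb⟩ : ∃ b : ℕ → ℝ, b = fun k => prob (S ∩ {A | X t r A = k}) := ⟨_, rfl⟩
  have hb0 : ∀ k, 0 ≤ b k := by
    intro k
    rw [hb]
    exact measureReal_nonneg
  have hbN : b (N + 1) = 0 := by
    have h1 : S ∩ {A | X t r A = N + 1} = ∅ := by
      ext A
      simp only [Set.mem_inter_iff, Set.mem_ofPred_eq, Set.mem_empty_iff_false, iff_false, not_and]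
      intro _ h
      have := CH.X_le t r A
      omega
    rw [hb]
    simp only [h1]
    unfold prob
    simp
  have hrat : ∀ k : ℕ, (1 - (1 / 2 : ℝ) ^ t) * (k + 1) * b (k + 1) =
      (1 / 2) ^ t * ((N : ℝ) - k) * b k := by
    intro k
    have h1 := ratio (t := t) (r := r) (k := k) hS
    rw [hb, hN]
    push_cast
    exact h1
  have hV := CH.moments b N ((1 / 2) ^ t) hrat hbN
  have hmu : (1 / 2 : ℝ) ^ t * N = 2 ^ (2 * r) := by
    rw [hN]
    push_cast
    rw [pow_add, ← mul_assoc, ← mul_pow]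
    norm_num
  have hB : ∑ k ∈ Finset.range (N + 1), b k = prob S := by
    rw [CH.decomp t r hSm, hN, hb]
  rw [hmu, hB] at hV
  have hIm : MeasurableSet (InI t r) := CH.meas_floc (floc_X t r
    (fun n => 2 ^ (2 * r) ≤ n + 2 ^ (r + 1) ∧ n < 2 ^ (2 * r) + 2 ^ (r + 1)))
  have hdec := CH.decomp t r (hSm.inter hIm.compl)
  rw [← hN] at hdec
  have hlow : (2 : ℝ) ^ (2 * r + 2) * prob (S ∩ (InI t r)ᶜ) ≤
      ∑ k ∈ Finset.range (N + 1), ((k : ℝ) - 2 ^ (2 * r)) ^ 2 * b k := by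
    rw [hdec, Finset.mul_sum]
    apply Finset.sum_le_sum
    intro k _
    by_cases hk : 2 ^ (2 * r) ≤ k + 2 ^ (r + 1) ∧ k < 2 ^ (2 * r) + 2 ^ (r + 1)
    · have h1 : S ∩ (InI t r)ᶜ ∩ {A | X t r A = k} = ∅ := by
        ext A
        simp only [Set.mem_inter_iff, Set.mem_ofPred_eq, Set.mem_empty_iff_false, iff_false,
          Set.mem_compl_iff, not_and]
        rintro ⟨_, h2⟩ h3
        apply h2
        unfold InI
        rw [Set.mem_ofPred_eq, h3]
        exact hk
      rw [h1]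
      have h2 : prob (∅ : Set Oracle) = 0 := by
        unfold prob
        simp
      rw [h2, mul_zero]
      exact mul_nonneg (sq_nonneg _) (hb0 k)
    · have h1 : prob (S ∩ (InI t r)ᶜ ∩ {A | X t r A = k}) ≤ b k := by
        rw [hb]
        exact M2.prob_mono (fun A hA => ⟨hA.1.1, hA.2⟩)
      have h2 : (2 : ℝ) ^ (2 * r + 2) ≤ ((k : ℝ) - 2 ^ (2 * r)) ^ 2 := by
        rw [not_and_or, not_le, not_lt] at hk
        have h3 : (2 : ℝ) ^ (2 * r + 2) = (2 ^ (r + 1)) ^ 2 := by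
          rw [← pow_mul]
          congr 1
          ring
        rw [h3]
        have hp : (0 : ℝ) < 2 ^ (r + 1) := by positivity
        rcases hk with hk | hk
        · have h4 : (k : ℝ) + 2 ^ (r + 1) < 2 ^ (2 * r) := by exact_mod_cast hk
          nlinarith
        · have h4 : (2 : ℝ) ^ (2 * r) + 2 ^ (r + 1) ≤ k := by exact_mod_cast hk
          nlinarith
      have h5 : (0 : ℝ) ≤ 2 ^ (2 * r + 2) := by positivity
      exact (mul_le_mul_of_nonneg_left h1 h5).trans (mul_le_mul_of_nonneg_right h2 (hb0 k))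
  rw [hV] at hlow
  have hS0 : 0 ≤ prob S := measureReal_nonneg
  have hp0 : (0 : ℝ) ≤ (1 / 2) ^ t := by positivity
  have h6 : (2 : ℝ) ^ (2 * r + 2) = 4 * 2 ^ (2 * r) := by
    rw [pow_add]
    norm_num
    ring
  have h7 : (0 : ℝ) < 2 ^ (2 * r) := by positivity
  rw [h6] at hlow
  have h8 : (2 : ℝ) ^ (2 * r) * (1 - (1 / 2) ^ t) * prob S ≤ 2 ^ (2 * r) * prob S := by
    have : (2 : ℝ) ^ (2 * r) * (1 - (1 / 2) ^ t) ≤ 2 ^ (2 * r) := by nlinarith
    exact mul_le_mul_of_nonneg_right this hS0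
  have h9 : (2 : ℝ) ^ (2 * r) * (4 * prob (S ∩ (InI t r)ᶜ)) ≤ 2 ^ (2 * r) * prob S := by
    calc (2 : ℝ) ^ (2 * r) * (4 * prob (S ∩ (InI t r)ᶜ)) =
        4 * 2 ^ (2 * r) * prob (S ∩ (InI t r)ᶜ) := by ring
      _ ≤ _ := hlow.trans h8
  have h10 := le_of_mul_le_mul_left h9 h7
  linarith

end Pool.Agent.H583R2.AD
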