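import Pool.Agent.H583R2.AD.Defs
import Pool.Agent.H583R2.LH.Few

/-! Task CT: counting hidden strings. -/

namespace Pool.Agent.H583R2.AD

open MeasureTheory Pool.Agent.NPC Pool.Agent.H628R3.RO
open Pool.Agent.H583R2.LH (yp FLoc)
open Pool.Agent.H583R2.LH.FW (Ln)

private theorem CT_memJ {t : ℕ} {y q : List Bool} : q ∈ J t y ↔ ∃ i < t, yp y i = q := by
  unfold J
  simp only [Finset.mem_image, Finset.mem_range]

private theorem CT_plant (J : Finset (List Bool)) (A : Oracle) (q : List Bool) :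
    plant J A q = if q ∈ J then true else A q := rfl

private theorem CT_memHd {t r : ℕ} {A : Oracle} {y : List Bool} :
    y ∈ Hd t r A ↔ y.length = t + 2 * r ∧ ∀ i < t, A (yp y i) = true := Iff.rfl

theorem card_J (t : ℕ) (y : List Bool) : (J t y).card = t := by
  unfold J
  rw [Finset.card_image_of_injective _ (fun i j h => (LH.yp_inj h).2), Finset.card_range]

theorem Hd_finite (t r : ℕ) (A : Oracle) : (Hd t r A).Finite :=
  (Ln (t + 2 * r)).finite_toSet.subset fun y hy => by
    rw [Finset.mem_coe, LH.FW.mem_Ln]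
    exact hy.1

/-- planting a string which is not hidden -/
theorem Hd_plant {t r : ℕ} {A : Oracle} {y : List Bool} (hy : y.length = t + 2 * r) :
    Hd t r (plant (J t y) A) = insert y (Hd t r A) := by
  ext z
  rw [Set.mem_insert_iff, CT_memHd, CT_memHd]
  by_cases hz : z = y
  · subst hz
    refine ⟨fun _ => Or.inl rfl, fun _ => ⟨hy, fun i hi => ?_⟩⟩
    rw [CT_plant, if_pos (CT_memJ.2 ⟨i, hi, rfl⟩)]
  · have h1 : ∀ i, plant (J t y) A (yp z i) = A (yp z i) := by
      intro i
      rw [CT_plant, if_neg]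
      intro h
      obtain ⟨j, -, hj⟩ := CT_memJ.1 h
      exact hz (LH.yp_inj hj).1.symm
    constructor
    · rintro ⟨h2, h3⟩
      exact Or.inr ⟨h2, fun i hi => by rw [← h1]; exact h3 i hi⟩
    · rintro (h | ⟨h2, h3⟩)
      · exact absurd h hz
      · exact ⟨h2, fun i hi => by rw [h1]; exact h3 i hi⟩

theorem X_plant {t r : ℕ} {A : Oracle} {y : List Bool} (hy : y.length = t + 2 * r)
    (h : y ∉ Hd t r A) : X t r (plant (J t y) A) = X t r A + 1 := by
  unfold X
  rw [Hd_plant hy, Set.ncard_insert_of_notMem h (Hd_finite t r A)]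

theorem plant_of_mem {t r : ℕ} {A : Oracle} {y : List Bool} (h : y ∈ Hd t r A) :
    plant (J t y) A = A := by
  funext q
  rw [CT_plant]
  split_ifs with hq
  · obtain ⟨i, hi, rfl⟩ := CT_memJ.1 hq
    exact (h.2 i hi).symm
  · rfl

/-- planting changes nothing at short strings -/
theorem plant_short {t r : ℕ} {A : Oracle} {y : List Bool} (hy : y.length = t + 2 * r)
    {q : List Bool} (hq : q.length < t) : plant (J t y) A q = A q := by
  rw [CT_plant, if_neg]
  intro h
  obtain ⟨i, hi, rfl⟩ := CT_memJ.1 h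
  rw [LH.length_yp, hy] at hq
  omega

private theorem CT_congr {t r : ℕ} {A A' : Oracle}
    (h : ∀ q : List Bool, q.length < t + (t + 2 * r) + 2 → A q = A' q) :
    Hd t r A = Hd t r A' := by
  ext y
  rw [CT_memHd, CT_memHd]
  constructor
  · rintro ⟨h1, h2⟩
    refine ⟨h1, fun i hi => ?_⟩
    rw [← h _ (by rw [LH.length_yp, h1]; omega)]
    exact h2 i hi
  · rintro ⟨h1, h2⟩
    refine ⟨h1, fun i hi => ?_⟩
    rw [h _ (by rw [LH.length_yp, h1]; omega)]
    exact h2 i hi

/-- events that depend on the number of hidden strings -/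
theorem floc_X (t r : ℕ) (P : ℕ → Prop) : FLoc {A | P (X t r A)} := by
  refine ⟨t + (t + 2 * r) + 2, fun A A' h => ?_⟩
  have h1 : X t r A = X t r A' := by
    unfold X
    rw [CT_congr h]
  change P (X t r A) ↔ P (X t r A')
  rw [h1]

private theorem CT_floc_mem (t r : ℕ) (y : List Bool) : FLoc {A | y ∈ Hd t r A} := by
  refine ⟨t + (t + 2 * r) + 2, fun A A' h => ?_⟩
  change y ∈ Hd t r A ↔ y ∈ Hd t r A'
  rw [CT_congr h]

private theorem CT_meas {S : Set Oracle} (h : FLoc S) : MeasurableSet S := by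
  obtain ⟨N, hN⟩ := h
  exact measurableSet_of_loc (List.finite_length_lt Bool N) hN

private theorem CT_card (t r : ℕ) (A : Oracle) :
    ∑ y ∈ Ln (t + 2 * r), Set.indicator {A | y ∈ Hd t r A} (1 : Oracle → ℝ) A = (X t r A : ℝ) := by
  classical
  have h1 : ∀ y ∈ Ln (t + 2 * r), Set.indicator {A | y ∈ Hd t r A} (1 : Oracle → ℝ) A =
      if y ∈ Hd t r A then (1 : ℝ) else 0 := by
    intro y _
    rw [Set.indicator_apply]
    rfl
  rw [Finset.sum_congr rfl h1, Finset.sum_boole]
  congr 1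
  unfold X
  rw [← Set.ncard_coe_finset]
  congr 1
  ext y
  rw [Finset.mem_coe, Finset.mem_filter, LH.FW.mem_Ln]
  exact ⟨fun h => h.2, fun h => ⟨h.1, h⟩⟩

/-- double counting -/
theorem sum_Hd (t r k : ℕ) {E : Set Oracle} (hE : FLoc E) :
    ∑ y ∈ Ln (t + 2 * r), prob (E ∩ {A | X t r A = k} ∩ {A | y ∈ Hd t r A}) =
      k * prob (E ∩ {A | X t r A = k}) := by
  have hF : MeasurableSet (E ∩ {A | X t r A = k}) :=
    (CT_meas hE).inter (CT_meas (floc_X t r (fun n => n = k)))
  have hH : ∀ y : List Bool, MeasurableSet {A | y ∈ Hd t r A} := fun y => CT_meas (CT_floc_mem t r y)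
  have h1 : ∀ y ∈ Ln (t + 2 * r), prob (E ∩ {A | X t r A = k} ∩ {A | y ∈ Hd t r A}) =
      ∫ A, (E ∩ {A | X t r A = k} ∩ {A | y ∈ Hd t r A}).indicator (1 : Oracle → ℝ) A
        ∂randomOracle := by
    intro y _
    unfold prob
    rw [integral_indicator_one (hF.inter (hH y))]
  have h2 : prob (E ∩ {A | X t r A = k}) =
      ∫ A, (E ∩ {A | X t r A = k}).indicator (1 : Oracle → ℝ) A ∂randomOracle := by
    unfold prob
    rw [integral_indicator_one hF]
  rw [Finset.sum_congr rfl h1, h2, ← integral_finsetSum, ← integral_const_mul]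
  · congr 1
    funext A
    have h3 : ∀ y ∈ Ln (t + 2 * r),
        (E ∩ {A | X t r A = k} ∩ {A | y ∈ Hd t r A}).indicator (1 : Oracle → ℝ) A =
          (E ∩ {A | X t r A = k}).indicator (1 : Oracle → ℝ) A *
            Set.indicator {A | y ∈ Hd t r A} (1 : Oracle → ℝ) A := by
      intro y _
      rw [Set.inter_indicator_one]
      rfl
    rw [Finset.sum_congr rfl h3, ← Finset.mul_sum, CT_card]
    by_cases hA : A ∈ E ∩ {A | X t r A = k}
    · have : X t r A = k := hA.2
      rw [this]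
      ring
    · rw [Set.indicator_of_notMem hA]
      ring
  · intro y _
    exact (integrable_const (1 : ℝ)).indicator (hF.inter (hH y))

/-- double counting, for the strings that are not hidden -/
theorem sum_not_Hd (t r k : ℕ) {E : Set Oracle} (hE : FLoc E) :
    ∑ y ∈ Ln (t + 2 * r), prob (E ∩ {A | X t r A = k} ∩ {A | y ∉ Hd t r A}) =
      (2 ^ (t + 2 * r) - k) * prob (E ∩ {A | X t r A = k}) := by
  have h1 : ∀ y ∈ Ln (t + 2 * r), prob (E ∩ {A | X t r A = k} ∩ {A | y ∉ Hd t r A}) =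
      prob (E ∩ {A | X t r A = k}) - prob (E ∩ {A | X t r A = k} ∩ {A | y ∈ Hd t r A}) := by
    intro y _
    have h := measureReal_inter_add_sdiff (μ := randomOracle)
      (s := E ∩ {A | X t r A = k}) (CT_meas (CT_floc_mem t r y))
    have e : (E ∩ {A | X t r A = k}) \ {A | y ∈ Hd t r A} =
        E ∩ {A | X t r A = k} ∩ {A | y ∉ Hd t r A} := rfl
    rw [e] at h
    unfold prob
    linarith
  rw [Finset.sum_congr rfl h1, Finset.sum_sub_distrib, sum_Hd t r k hE, Finset.sum_const,
    LH.FW.card_Ln, nsmul_eq_mul]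
  push_cast
  ring

end Pool.Agent.H583R2.AD
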