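import Pool.Agent.H583R2.LH.Reg

/-!
# How much advice is needed for the complements of the sets in `NE` and of the sparse sets in `NP`?

At a stage with parameters `t`, `r` a string `y` of length `t + 2 r` is *hidden* if the oracle has
ones at the first `t` positions of its region. The number `X t r A` of hidden strings has mean
`2 ^ (2 r)` and standard deviation at most `2 ^ r`.
-/

namespace Pool.Agent.H583R2.AD

open MeasureTheory Pool.Agent.NPC Pool.Agent.H628R3.RO
open Pool.Agent.H583R2.LH (yp FLoc)

/-! ### Classes -/

/-- the linear exponents `c (n + 1)` -/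
def Lin : Set (Polynomial ℕ) := {q | ∃ c : ℕ, q = Polynomial.C c * (Polynomial.X + 1)}

/-- `NTIME (2 ^ O(q))` relative to `A`, for `q` in `E`: `x` is in `L` if and only if a verifier
accepts `x` with some certificate of length at most `2 ^ q(|x|)`; the verifier works in polynomial
time relative to `A` (in the length of the pair). -/
def InNT (E : Set (Polynomial ℕ)) (A : Oracle) (L : Set (List Bool)) : Prop :=
  ∃ V : List Bool → List Bool, IsFP A V ∧ ∃ q ∈ E, ∀ x : List Bool,
    (x ∈ L ↔ ∃ w : List Bool, w.length ≤ 2 ^ q.eval x.length ∧ V (pairBits x w) = [true])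

/-- the class `NE` relative to `A` -/
def NE (A : Oracle) : Set (Set (List Bool)) := {L | InNT Lin A L}

/-- the class `NEXP` relative to `A` -/
def NEXP (A : Oracle) : Set (Set (List Bool)) := {L | InNT Set.univ A L}

/-- the class `NP` relative to `A` -/
def NP (A : Oracle) : Set (Set (List Bool)) := {L | IsNP A L}

/-- the class `C / a`: `a n` bits of advice for the inputs of length `n` -/
def Adv (C : Set (Set (List Bool))) (a : ℕ → ℕ) : Set (Set (List Bool)) :=
  {K | ∃ B ∈ C, ∃ f : ℕ → List Bool, (∀ n, (f n).length ≤ a n) ∧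
    ∀ x, x ∈ K ↔ pairBits x (f x.length) ∈ B}

/-- `L` is sparse: the number of its elements of length `n` is polynomially bounded -/
def Sparse (L : Set (List Bool)) : Prop :=
  ∃ p : Polynomial ℕ, ∀ n : ℕ, Set.ncard {x : List Bool | x ∈ L ∧ x.length = n} ≤ p.eval n

/-! ### Hidden strings -/

/-- the hidden strings -/
def Hd (t r : ℕ) (A : Oracle) : Set (List Bool) :=
  {y | y.length = t + 2 * r ∧ ∀ i < t, A (yp y i) = true}

/-- the number of hidden strings -/
noncomputable def X (t r : ℕ) (A : Oracle) : ℕ := (Hd t r A).ncard

/-- the first `t` positions of the region of `y` -/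
def J (t : ℕ) (y : List Bool) : Finset (List Bool) := (Finset.range t).image (yp y)

/-- the number of hidden strings is close to its mean -/
def InI (t r : ℕ) : Set Oracle :=
  {A | 2 ^ (2 * r) ≤ X t r A + 2 ^ (r + 1) ∧ X t r A < 2 ^ (2 * r) + 2 ^ (r + 1)}

/-- the threshold language of the stage -/
def Lt (t r : ℕ) (A : Oracle) : Set (List Bool) :=
  {x | x.length = r + 2 ∧ 2 ^ (2 * r) + valB x < X t r A + 2 ^ (r + 1)}

/-- the acceptance condition `acc` is right for the complement of the threshold language -/
def Cor (acc : List Bool → Oracle → Prop) (t r : ℕ) : Set Oracle :=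
  {A | ∀ x : List Bool, x.length = r + 2 → (acc x A ↔ x ∉ Lt t r A)}

/-- something in the threshold language is accepted -/
def Ovr (acc : List Bool → Oracle → Prop) (t r : ℕ) : Set Oracle :=
  {A | ∃ x : List Bool, x ∈ Lt t r A ∧ acc x A}

/-! ### Languages -/

/-- the hard language in `NE` -/
def L1 (A : Oracle) : Set (List Bool) := {x | ∃ n, x.length = n + 2 ∧ x ∈ Lt (2 ^ n) n A}

/-- the parameter `r` of the sparse languages -/
def rk (k n : ℕ) : ℕ := k * n.size

/-- the hard sparse languages in `NP` -/
def L2 (k : ℕ) (A : Oracle) : Set (List Bool) :=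
  {z | ∃ (n : ℕ) (x : List Bool), z = List.replicate n false ++ true :: x ∧ x ∈ Lt n (rk k n) A}

/-- acceptance by a nondeterministic algorithm, exponential time -/
def Acc1 (V : Alg) (q : Polynomial ℕ) (z : List Bool) (A : Oracle) : Prop :=
  ∃ c : List Bool, c.length ≤ 2 ^ q.eval z.length ∧ V.out A (pairBits z c) = some [true]

end Pool.Agent.H583R2.AD
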