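import Pool.Agent.H583R2.AD.Defs
import Pool.Agent.H583R2.NC.MainF
import Pool.Agent.H583R2.LH.MemL
import Pool.Agent.H628R3.RO.G2

/-! Task ME: membership in `NE`. -/

namespace Pool.Agent.H583R2.AD

open MeasureTheory Pool.Agent.NPC Pool.Agent.H628R3.RO
open Pool.Agent.H583R2.LH (yp FLoc)

namespace ME

open Pool.Agent.H583R2.LH (lst poly_lst)
open Pool.Agent.H583R2.LH.ML Pool.Agent.H628R3.RO.G2

section

variable {α : Type} [TEnc α]

theorem p_pow2 {n : α → ℕ} (hn : UPoly n) : Poly (fun a => 2 ^ n a) :=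
  (Poly.valBits (Poly.append (p_replicate hn false) (NPC.Poly.const [true]))).congr fun a => by
    rw [valB_replicate_false]
    simp

theorem u_sub2 {n : α → ℕ} (hn : UPoly n) : UPoly (fun a => n a - 2) :=
  UPoly.of_le (Poly.sub hn.toPoly (NPC.Poly.const 2)) hn fun _ => Nat.sub_le _ _

end

/-- the test of a certificate -/
def g (p : List Bool × List Bool) : Bool :=
  (decide (2 ≤ p.1.length) && incr (lst p.2)) &&
   ((lst p.2).all (fun y => decide (y.length = 2 ^ (p.1.length - 2) + 2 * (p.1.length - 2))) &&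
     decide (2 ^ (2 * (p.1.length - 2)) + valB p.1 < (lst p.2).length + 2 ^ (p.1.length - 2 + 1)))

/-- the number of questions -/
def mq (x y : List Bool) : ℕ := min (2 ^ (x.length - 2)) y.length

/-- the questions -/
def q (p : List Bool × List Bool) : List (List Bool) :=
  (lst p.2).flatMap (fun y => asks (mq p.1 y) 0 y)

theorem poly_g : Poly g := by
  unfold g
  have h1 : Poly (fun p : List Bool × List Bool => p.1) := Poly.fst Poly.id
  have h2 : Poly (fun p : List Bool × List Bool => lst p.2) := poly_lst.comp (Poly.snd Poly.id)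
  have hn : UPoly (fun p : List Bool × List Bool => p.1.length - 2) := u_sub2 (UPoly.length h1)
  have h3 : Poly (fun p : List Bool × List Bool => incr (lst p.2)) := poly_incr.comp h2
  have h4 : Poly (fun p : List Bool × List Bool => decide (2 ≤ p.1.length)) :=
    Poly.decide_le (NPC.Poly.const 2) (Poly.length h1)
  have h5 : Poly (fun p : List Bool × List Bool =>
      2 ^ (p.1.length - 2) + 2 * (p.1.length - 2)) :=
    Poly.add (p_pow2 hn) (Poly.mul (NPC.Poly.const 2) hn.toPoly)
  have h6 : Poly (fun p : List Bool × List Bool => (lst p.2).all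
      (fun y => decide (y.length = 2 ^ (p.1.length - 2) + 2 * (p.1.length - 2)))) :=
    Poly.all (p := fun (p : List Bool × List Bool) (y : List Bool) =>
      decide (y.length = 2 ^ (p.1.length - 2) + 2 * (p.1.length - 2))) h2
      (Poly.decide_eq (Poly.length (Poly.snd Poly.id)) (h5.comp (Poly.fst Poly.id)))
  have h7 : Poly (fun p : List Bool × List Bool =>
      decide (2 ^ (2 * (p.1.length - 2)) + valB p.1 < (lst p.2).length +
        2 ^ (p.1.length - 2 + 1))) :=
    Poly.decide_lt (Poly.add (p_pow2 (UPoly.mul (UPoly.const 2) hn)) (Poly.valBits h1))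
      (Poly.add (Poly.length h2) (p_pow2 (UPoly.add hn (UPoly.const 1))))
  exact Poly.and (Poly.and h4 h3) (Poly.and h6 h7)

theorem u_mq {α : Type} [TEnc α] {x y : α → List Bool} (hx : Poly x) (hy : Poly y) :
    UPoly (fun a => mq (x a) (y a)) :=
  UPoly.of_le (m := fun a => mq (x a) (y a)) (Poly.min (p_pow2 (u_sub2 (UPoly.length hx)))
    (Poly.length hy)) (UPoly.length hy) fun _ => min_le_right _ _

theorem poly_q : Poly q := by
  unfold q
  have h2 : Poly (fun p : List Bool × List Bool => lst p.2) := poly_lst.comp (Poly.snd Poly.id)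
  have h3 : Poly (fun a : (List Bool × List Bool) × List Bool => a.2) := Poly.snd Poly.id
  have h4 : Poly (fun a : (List Bool × List Bool) × List Bool => a.1.1) :=
    Poly.fst (Poly.fst Poly.id)
  exact Poly.flatMap (F := fun (p : List Bool × List Bool) y => asks (mq p.1 y) 0 y) h2
    (p_asks (u_mq h4 h3) (UPoly.const 0) h3)

theorem Hd_fin (t r : ℕ) (A : Oracle) : (Hd t r A).Finite :=
  (List.finite_length_eq Bool (t + 2 * r)).subset fun _ h => h.1

theorem exists_lst (t r : ℕ) (A : Oracle) : ∃ L, Inc L ∧ (∀ y, y ∈ L ↔ y ∈ Hd t r A) ∧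
    L.length = X t r A := by
  obtain ⟨L, hL, hm⟩ := exists_inc (t + 2 * r) (Hd_fin t r A).toFinset
    (fun y hy => ((Hd_fin t r A).mem_toFinset.1 hy).1)
  have hm' : ∀ y, y ∈ L ↔ y ∈ Hd t r A :=
    fun y => (hm y).trans (Hd_fin t r A).mem_toFinset
  refine ⟨L, hL, hm', ?_⟩
  have h1 : Hd t r A = (L.toFinset : Set (List Bool)) := by
    ext y
    rw [Finset.mem_coe, List.mem_toFinset, hm']
  unfold X
  rw [h1, Set.ncard_coe_finset, List.toFinset_card_of_nodup hL.nodup]

theorem length_le_X {t r : ℕ} {A : Oracle} {L : List (List Bool)} (hL : L.Nodup)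
    (h : ∀ y ∈ L, y ∈ Hd t r A) : L.length ≤ X t r A := by
  unfold X
  rw [← List.toFinset_card_of_nodup hL, ← Set.ncard_coe_finset]
  apply Set.ncard_le_ncard _ (Hd_fin t r A)
  intro y hy
  rw [Finset.mem_coe, List.mem_toFinset] at hy
  exact h y hy

theorem key {A : Oracle} {x w : List Bool} {n : ℕ} (hx : x.length = n + 2) :
    ver A g q (pairBits x w) = [true] ↔ Inc (lst w) ∧ (∀ y ∈ lst w, y ∈ Hd (2 ^ n) n A) ∧
      2 ^ (2 * n) + valB x < (lst w).length + 2 ^ (n + 1) := by
  rw [ver_iff]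
  unfold g q mq
  simp only [Bool.and_eq_true, decide_eq_true_eq, List.all_eq_true, incr_iff, hx,
    Nat.add_sub_cancel, List.mem_flatMap]
  constructor
  · rintro ⟨⟨⟨-, h1⟩, h2, h3⟩, h4⟩
    refine ⟨h1, fun y hy => ⟨h2 y hy, fun i hi => ?_⟩, h3⟩
    refine h4 _ ⟨y, hy, ?_⟩
    unfold asks
    refine List.mem_map.2 ⟨i, List.mem_range.2 ?_, rfl⟩
    rw [h2 y hy]
    omega
  · rintro ⟨h1, h2, h3⟩
    refine ⟨⟨⟨by omega, h1⟩, fun y hy => (h2 y hy).1, h3⟩, ?_⟩
    rintro z ⟨y, hy, hz⟩
    unfold asks at hz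
    obtain ⟨i, hi, rfl⟩ := List.mem_map.1 hz
    rw [List.mem_range] at hi
    exact (h2 y hy).2 i (lt_of_lt_of_le hi (min_le_left _ _))

theorem bound (n v m : ℕ) (hv : v < 2 ^ (n + 2)) (hm : m ≤ 2 ^ (2 * n) + v + 1) :
    m * (4 * (2 ^ n + 2 * n) + 1 + 1) + 1 ≤ 2 ^ (3 * (n + 2 + 1)) := by
  have h1 : n < 2 ^ n := Nat.lt_two_pow_self
  have e1 : 2 ^ (2 * n) = 2 ^ n * 2 ^ n := by rw [two_mul, pow_add]
  have e2 : 2 ^ (n + 2) = 4 * 2 ^ n := by rw [pow_add]; ring
  have e3 : 2 ^ (3 * (n + 2 + 1)) = 512 * (2 ^ n * 2 ^ n * 2 ^ n) := by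
    rw [show 3 * (n + 2 + 1) = n + n + n + 9 by ring, pow_add, pow_add, pow_add]
    norm_num
    ring
  rw [e1] at hm
  rw [e2] at hv
  rw [e3]
  generalize 2 ^ n = N at *
  have h2 : 1 ≤ N := by omega
  have h3 : N ≤ N * N := Nat.le_mul_of_pos_left N h2
  have h4 : m ≤ 5 * (N * N) := by omega
  have h5 : 4 * (N + 2 * n) + 1 + 1 ≤ 14 * N := by omega
  have h6 := Nat.mul_le_mul h4 h5
  have h7 : 5 * (N * N) * (14 * N) = 70 * (N * N * N) := by ring
  rw [h7] at h6
  have h8 : 1 ≤ N * N * N := Nat.mul_pos (Nat.mul_pos h2 h2) h2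
  omega

end ME

open ME in
theorem mem_NE (A : Oracle) : L1 A ∈ NE A := by
  refine ⟨G2.ver A g q, G2.ver_isFP A poly_g poly_q, _, ⟨3, rfl⟩, fun x => ?_⟩
  constructor
  · rintro ⟨n, hx, hx', hlt⟩
    obtain ⟨L, hL, hm, hl⟩ := exists_lst (2 ^ n) n A
    have hlt' : 2 ^ (2 * n) + valB x < X (2 ^ n) n A + 2 ^ (n + 1) := hlt
    obtain ⟨m, hm1⟩ : ∃ m, m = 2 ^ (2 * n) + valB x + 1 - 2 ^ (n + 1) := ⟨_, rfl⟩
    refine ⟨bits (L.take m), ?_, ?_⟩
    · have h1 : sz (L.take m) ≤ (L.take m).length * (4 * (2 ^ n + 2 * n) + 1 + 1) + 1 := by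
        refine sz_le_length_mul (L.take m) _ fun y hy => ?_
        have := ((hm y).1 (List.mem_of_mem_take hy)).1
        rw [← this]
        exact sz_listBool_le y
      rw [bits_length]
      refine h1.trans ?_
      simp only [Polynomial.eval_add, Polynomial.eval_mul, Polynomial.eval_X, Polynomial.eval_C,
        Polynomial.eval_one]
      rw [hx]
      apply bound n (valB x)
      · have := valB_lt x
        rwa [hx] at this
      · rw [List.length_take]
        have hm2 : m ≤ 2 ^ (2 * n) + valB x + 1 := by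
          rw [hm1]
          exact Nat.sub_le _ _
        exact (min_le_left _ _).trans hm2
    · rw [key hx, LH.ML.lst_bits]
      refine ⟨List.Pairwise.sublist (List.take_sublist _ _) hL,
        fun y hy => (hm y).1 (List.mem_of_mem_take hy), ?_⟩
      rw [List.length_take, hl]
      omega
  · rintro ⟨w, -, h⟩
    have h2 : 2 ≤ x.length := by
      rw [G2.ver_iff] at h
      have h3 := h.1
      unfold g at h3
      simp only [Bool.and_eq_true, decide_eq_true_eq] at h3
      exact h3.1.1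
    obtain ⟨n, hx⟩ : ∃ n, x.length = n + 2 := ⟨x.length - 2, by omega⟩
    rw [key hx] at h
    obtain ⟨h3, h4, h5⟩ := h
    refine ⟨n, hx, hx, ?_⟩
    have := length_le_X h3.nodup h4
    omega

end Pool.Agent.H583R2.AD
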