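import Pool.Agent.H583R2.AD.Defs
import Pool.Agent.H583R2.NC.MainF
import Pool.Agent.H583R2.LH.MemL

/-! Task MN: the sparse languages. (Proof: helper399, from the note of helper583.) -/

namespace Pool.Agent.H583R2.AD

open MeasureTheory Pool.Agent.NPC Pool.Agent.H628R3.RO
open Pool.Agent.H583R2.LH (yp FLoc)
open Pool.Agent.H583R2.LH (lst poly_lst)
open Pool.Agent.H583R2.LH.ML (Inc incr incr_iff poly_incr lst_bits exists_inc)

namespace MN

/-- the number of leading zeros -/
def zn (z : List Bool) : ℕ := lvl (z.map (fun b => !b))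

/-- the rest after the first one -/
def zx (z : List Bool) : List Bool := z.drop (zn z + 1)

theorem zn_eq (n : ℕ) (x : List Bool) : zn (List.replicate n false ++ true :: x) = n := by
  unfold zn lvl
  induction n with
  | zero => simp
  | succ n ih =>
    rw [List.replicate_succ, List.cons_append, List.map_cons, List.takeWhile_cons_of_pos rfl,
      List.length_cons, ih]

theorem zx_eq (n : ℕ) (x : List Bool) : zx (List.replicate n false ++ true :: x) = x := by
  unfold zx
  rw [zn_eq]
  induction n with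
  | zero => rfl
  | succ n ih => rw [List.replicate_succ, List.cons_append, List.drop_succ_cons, ih]

theorem z_split : ∀ z : List Bool, zn z < z.length →
    z = List.replicate (zn z) false ++ true :: zx z
  | [], h => by simp [zn, lvl] at h
  | true :: t, _ => by simp [zn, zx, lvl]
  | false :: t, h => by
    have h1 : zn (false :: t) = zn t + 1 := by simp [zn, lvl]
    rw [h1] at h
    have h2 := z_split t (by simpa using h)
    have h3 : zx (false :: t) = zx t := by
      unfold zx
      rw [h1, List.drop_succ_cons]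
    rw [h1, h3, List.replicate_succ, List.cons_append, ← h2]

/-- the test of the certificates -/
def tst (k : ℕ) (z : List Bool) (L : List (List Bool)) : Bool :=
  decide (zn z < z.length) && (decide ((zx z).length = rk k (zn z) + 2) && (incr L &&
    (L.all (fun y => decide (y.length = zn z + 2 * rk k (zn z))) &&
      decide (2 ^ (2 * rk k (zn z)) + valB (zx z) < L.length + 2 ^ (rk k (zn z) + 1)))))

/-- the questions -/
def qN (p : List Bool × List Bool) : List (List Bool) :=
  (lst p.2).flatMap (fun y => asks (zn p.1) 0 y)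

/-- the test -/
def tN (k : ℕ) (p : (List Bool × List Bool) × List Bool) : Bool :=
  tst k p.1.1 (lst p.1.2) && p.2.all id

section

variable {α : Type} [TEnc α]

theorem u_zn {z : α → List Bool} (hz : Poly z) : UPoly (fun a => zn (z a)) :=
  u_lvl (NPC.Poly.map (F := fun (_ : α) (b : Bool) => !b) hz (Poly.not (Poly.snd Poly.id)))

theorem p_zx {z : α → List Bool} (hz : Poly z) : Poly (fun a => zx (z a)) :=
  p_drop hz (UPoly.add (u_zn hz) (UPoly.const 1))

theorem u_rk (k : ℕ) {n : α → ℕ} (hn : UPoly n) : UPoly (fun a => rk k (n a)) := by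
  have h1 : UPoly (fun a => (n a).bits.length) := UPoly.length (Poly.natBits hn.toPoly)
  have e : (fun a => rk k (n a)) = fun a => k * (n a).bits.length := by
    funext a
    unfold rk
    rw [Nat.size_eq_bits_len]
  rw [e]
  exact UPoly.mul (UPoly.const k) h1

theorem p_pow2 {m : α → ℕ} (hm : UPoly m) : Poly (fun a => 2 ^ m a) := by
  refine (Poly.valBits (Poly.append (p_replicate hm false) (NPC.Poly.const [true]))).congr
    fun a => ?_
  rw [valB_replicate_false]
  simp

end

theorem poly_tst (k : ℕ) : Poly (fun p : List Bool × List (List Bool) => tst k p.1 p.2) := by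
  unfold tst
  have h1 : Poly (fun p : List Bool × List (List Bool) => p.1) := Poly.fst Poly.id
  have h2 : Poly (fun p : List Bool × List (List Bool) => p.2) := Poly.snd Poly.id
  have u1 : UPoly (fun p : List Bool × List (List Bool) => zn p.1) := u_zn h1
  have u2 : UPoly (fun p : List Bool × List (List Bool) => rk k (zn p.1)) := u_rk k u1
  have u3 : UPoly (fun p : List Bool × List (List Bool) => 2 * rk k (zn p.1)) :=
    UPoly.mul (UPoly.const 2) u2
  have h3 : Poly (fun p : List Bool × List (List Bool) => decide (zn p.1 < p.1.length)) :=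
    Poly.decide_lt u1.toPoly (Poly.length h1)
  have h4 : Poly (fun p : List Bool × List (List Bool) =>
      decide ((zx p.1).length = rk k (zn p.1) + 2)) :=
    Poly.decide_eq (Poly.length (p_zx h1)) (Poly.add u2.toPoly (NPC.Poly.const 2))
  have h5 : Poly (fun p : List Bool × List (List Bool) => incr p.2) := poly_incr.comp h2
  have h6 : Poly (fun p : List Bool × List (List Bool) =>
      p.2.all (fun y => decide (y.length = zn p.1 + 2 * rk k (zn p.1)))) :=
    Poly.all (p := fun (p : List Bool × List (List Bool)) (y : List Bool) =>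
      decide (y.length = zn p.1 + 2 * rk k (zn p.1))) h2
      (Poly.decide_eq (Poly.length (Poly.snd Poly.id))
        (Poly.add (u1.comp (Poly.fst Poly.id)).toPoly (u3.comp (Poly.fst Poly.id)).toPoly))
  have h7 : Poly (fun p : List Bool × List (List Bool) =>
      decide (2 ^ (2 * rk k (zn p.1)) + valB (zx p.1) < p.2.length + 2 ^ (rk k (zn p.1) + 1))) :=
    Poly.decide_lt (Poly.add (p_pow2 u3) (Poly.valBits (p_zx h1)))
      (Poly.add (Poly.length h2) (p_pow2 (UPoly.add u2 (UPoly.const 1))))
  exact Poly.and h3 (Poly.and h4 (Poly.and h5 (Poly.and h6 h7)))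

theorem poly_qN : Poly qN := by
  unfold qN
  have h1 : Poly (fun p : List Bool × List Bool => lst p.2) := poly_lst.comp (Poly.snd Poly.id)
  exact Poly.flatMap (F := fun (p : List Bool × List Bool) y => asks (zn p.1) 0 y) h1
    (p_asks (u_zn (Poly.fst (Poly.fst Poly.id))) (UPoly.const 0) (Poly.snd Poly.id))

theorem poly_tN (k : ℕ) : Poly (tN k) := by
  unfold tN
  have h1 : Poly (fun p : (List Bool × List Bool) × List Bool => (p.1.1, lst p.1.2)) :=
    Poly.pair (Poly.fst (Poly.fst Poly.id)) (poly_lst.comp (Poly.snd (Poly.fst Poly.id)))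
  have h2 : Poly (fun p : (List Bool × List Bool) × List Bool => tst k p.1.1 (lst p.1.2)) :=
    Poly.comp (g := fun p : List Bool × List (List Bool) => tst k p.1 p.2)
      (f := fun p : (List Bool × List Bool) × List Bool => (p.1.1, lst p.1.2)) (poly_tst k) h1
  exact Poly.and h2 (p_all_id (Poly.snd Poly.id))

theorem all_qN {A : Oracle} {z w : List Bool} : ((qN (z, w)).map A).all id = true ↔
    ∀ y ∈ lst w, ∀ i < zn z, A (yp y i) = true := by
  unfold qN
  rw [List.all_eq_true]
  constructor
  · intro h y hy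
    have h1 : ((asks (zn z) 0 y).map A).all id = true := by
      rw [List.all_eq_true]
      intro b hb
      obtain ⟨q, hq, rfl⟩ := List.mem_map.1 hb
      exact h _ (List.mem_map.2 ⟨q, List.mem_flatMap.2 ⟨y, hy, hq⟩, rfl⟩)
    rw [asks_all] at h1
    exact h1
  · intro h b hb
    obtain ⟨q, hq, rfl⟩ := List.mem_map.1 hb
    obtain ⟨y, hy, hq'⟩ := List.mem_flatMap.1 hq
    have h1 : ((asks (zn z) 0 y).map A).all id = true := by
      rw [asks_all]
      exact h y hy
    rw [List.all_eq_true] at h1
    exact h1 _ (List.mem_map.2 ⟨q, hq', rfl⟩)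

theorem tN_iff {k : ℕ} {A : Oracle} {z w : List Bool} :
    tN k ((z, w), (qN (z, w)).map A) = true ↔
      zn z < z.length ∧ (zx z).length = rk k (zn z) + 2 ∧ Inc (lst w) ∧
      (∀ y ∈ lst w, y ∈ Hd (zn z) (rk k (zn z)) A) ∧
      2 ^ (2 * rk k (zn z)) + valB (zx z) < (lst w).length + 2 ^ (rk k (zn z) + 1) := by
  unfold tN
  change (tst k z (lst w) && ((qN (z, w)).map A).all id) = true ↔ _
  rw [Bool.and_eq_true, all_qN]
  unfold tst
  simp only [Bool.and_eq_true, decide_eq_true_eq, incr_iff, List.all_eq_true]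
  constructor
  · rintro ⟨⟨h1, h2, h3, h4, h5⟩, h6⟩
    exact ⟨h1, h2, h3, fun y hy => ⟨h4 y hy, h6 y hy⟩, h5⟩
  · rintro ⟨h1, h2, h3, h4, h5⟩
    exact ⟨⟨h1, h2, h3, fun y hy => (h4 y hy).1, h5⟩, fun y hy => (h4 y hy).2⟩

theorem finite_Hd (t r : ℕ) (A : Oracle) : (Hd t r A).Finite :=
  (List.finite_length_eq Bool (t + 2 * r)).subset fun _ h => h.1

/-- the increasing list of the hidden strings -/
theorem exists_full (t r : ℕ) (A : Oracle) : ∃ L, Inc L ∧ (∀ y ∈ L, y ∈ Hd t r A) ∧
    L.length = X t r A := by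
  obtain ⟨L, hL, hm⟩ := exists_inc (t + 2 * r) (finite_Hd t r A).toFinset
    (fun y hy => ((finite_Hd t r A).mem_toFinset.1 hy).1)
  have hm' : ∀ y, y ∈ L ↔ y ∈ Hd t r A :=
    fun y => (hm y).trans (finite_Hd t r A).mem_toFinset
  refine ⟨L, hL, fun y hy => (hm' y).1 hy, ?_⟩
  have h1 : Hd t r A = (L.toFinset : Set (List Bool)) := by
    ext y
    rw [Finset.mem_coe, List.mem_toFinset, hm']
  unfold X
  rw [h1, Set.ncard_coe_finset, List.toFinset_card_of_nodup hL.nodup]

theorem length_le_X {t r : ℕ} {A : Oracle} {L : List (List Bool)} (hL : Inc L)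
    (h : ∀ y ∈ L, y ∈ Hd t r A) : L.length ≤ X t r A := by
  unfold X
  rw [← List.toFinset_card_of_nodup hL.nodup, ← Set.ncard_coe_finset]
  refine Set.ncard_le_ncard (fun y hy => ?_) (finite_Hd t r A)
  rw [Finset.mem_coe, List.mem_toFinset] at hy
  exact h y hy

theorem two_pow_size (n : ℕ) : 2 ^ n.size ≤ 2 * n + 1 := by
  rcases Nat.eq_zero_or_pos n with h | h
  · subst h; simp
  · have h1 : n.size ≠ 0 := by
      intro h2
      rw [Nat.size_eq_zero] at h2
      omega
    obtain ⟨s, hs⟩ := Nat.exists_eq_succ_of_ne_zero h1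
    have h2 : 2 ^ s ≤ n := by
      by_contra h3
      have h4 : n.size ≤ s := Nat.size_le.2 (by omega)
      omega
    rw [hs, Nat.succ_eq_add_one, pow_succ]
    omega

theorem two_pow_rk (k n : ℕ) : 2 ^ rk k n ≤ (2 * n + 1) ^ k := by
  unfold rk
  rw [mul_comm, pow_mul]
  exact Nat.pow_le_pow_left (two_pow_size n) k

/-- the bound for the certificates -/
noncomputable def rN (k : ℕ) : Polynomial ℕ :=
  (Polynomial.C 5 * (Polynomial.C 2 * Polynomial.X + Polynomial.C 1) ^ (2 * k)) *
    (Polynomial.C 12 * Polynomial.X + Polynomial.C 2) + Polynomial.C 1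

end MN

open MN

theorem mem_NP (k : ℕ) (A : Oracle) : L2 k A ∈ NP A := by
  refine isNP_of_tt A _ poly_qN (poly_tN k) (rN k) fun z => ?_
  constructor
  · rintro ⟨n, x, rfl, hx, hlt⟩
    obtain ⟨L, hL, hm, hl⟩ := exists_full n (rk k n) A
    obtain ⟨s, hs⟩ : ∃ s, s = 2 ^ (2 * rk k n) + valB x + 1 - 2 ^ (rk k n + 1) := ⟨_, rfl⟩
    have hsX : s ≤ L.length := by rw [hl]; omega
    refine ⟨bits (L.take s), ?_, ?_⟩
    · have h1 : sz (L.take s) ≤ (L.take s).length * (4 * (n + 2 * rk k n) + 1 + 1) + 1 := by
        refine sz_le_length_mul _ _ fun y hy => ?_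
        rw [← (hm y (List.mem_of_mem_take hy)).1]
        exact sz_listBool_le y
      rw [bits_length]
      refine h1.trans ?_
      obtain ⟨N, hN⟩ : ∃ N, N = (List.replicate n false ++ true :: x).length := ⟨_, rfl⟩
      rw [← hN]
      rw [List.length_append, List.length_replicate, List.length_cons, hx] at hN
      unfold rN
      simp only [Polynomial.eval_add, Polynomial.eval_mul, Polynomial.eval_X, Polynomial.eval_C,
        Polynomial.eval_pow]
      refine Nat.add_le_add_right (Nat.mul_le_mul ?_ (by omega)) 1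
      rw [List.length_take, min_eq_left hsX]
      have h2 := two_pow_rk k n
      have h3 := valB_lt x
      rw [hx] at h3
      have h4 : 2 ^ (rk k n + 2) = 4 * 2 ^ rk k n := by ring
      have h5 : 2 ^ (2 * rk k n) = 2 ^ rk k n * 2 ^ rk k n := by ring
      have h6 : (2 * n + 1) ^ k ≤ (2 * N + 1) ^ k := Nat.pow_le_pow_left (by omega) k
      have h7 : (2 * N + 1) ^ (2 * k) = (2 * N + 1) ^ k * (2 * N + 1) ^ k := by ring
      have h8 : 1 ≤ 2 ^ rk k n := Nat.one_le_two_pow
      have h9 : 2 ^ rk k n ≤ (2 * N + 1) ^ k := h2.trans h6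
      have h10 : 2 ^ rk k n * 2 ^ rk k n ≤ (2 * N + 1) ^ k * (2 * N + 1) ^ k :=
        Nat.mul_le_mul h9 h9
      have h11 : 2 ^ rk k n ≤ 2 ^ rk k n * 2 ^ rk k n := Nat.le_mul_of_pos_left _ h8
      rw [h7]
      omega
    · rw [tN_iff, zn_eq, zx_eq, lst_bits]
      refine ⟨?_, hx, List.Pairwise.sublist (List.take_sublist _ _) hL,
        fun y hy => hm y (List.mem_of_mem_take hy), ?_⟩
      · rw [List.length_append, List.length_replicate, List.length_cons]
        omega
      · rw [List.length_take, min_eq_left hsX]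
        omega
  · rintro ⟨w, -, h⟩
    rw [tN_iff] at h
    obtain ⟨h1, h2, h3, h4, h5⟩ := h
    refine ⟨zn z, zx z, z_split z h1, h2, ?_⟩
    have h6 := length_le_X h3 h4
    omega

end Pool.Agent.H583R2.AD
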