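import Pool.Agent.H583R2.AD.Defs

/-! Task SP: sparseness and membership in the sparse languages. (Proof: helper399.) -/

namespace Pool.Agent.H583R2.AD

open Pool.Agent.NPC Pool.Agent.H628R3.RO

namespace SP

/-- the number of leading zeros -/
private def zn (z : List Bool) : ℕ := (z.takeWhile (fun b => !b)).length

private theorem zn_eq (n : ℕ) (x : List Bool) : zn (List.replicate n false ++ true :: x) = n := by
  unfold zn
  induction n with
  | zero => simp
  | succ n ih =>
    rw [List.replicate_succ, List.cons_append, List.takeWhile_cons_of_pos rfl,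
      List.length_cons, ih]

private theorem inj {n n' : ℕ} {x x' : List Bool}
    (h : List.replicate n false ++ true :: x = List.replicate n' false ++ true :: x') :
    n = n' ∧ x = x' := by
  have h1 : n = n' := by
    have h2 := congrArg zn h
    rwa [zn_eq, zn_eq] at h2
  subst h1
  exact ⟨rfl, List.cons_injective (List.append_cancel_left h)⟩

private theorem two_pow_size (n : ℕ) : 2 ^ n.size ≤ 2 * n + 1 := by
  rcases Nat.eq_zero_or_pos n with h | h
  · subst h; simp
  · have h1 : n.size ≠ 0 := by
      intro h2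
      rw [Nat.size_eq_zero] at h2
      omega
    obtain ⟨s, hs⟩ := Nat.exists_eq_succ_of_ne_zero h1
    have h2 : 2 ^ s ≤ n := by
      by_contra h3
      have h4 : n.size ≤ s := Nat.size_le.2 (by omega)
      omega
    rw [hs, Nat.succ_eq_add_one, pow_succ]
    omega

private theorem two_pow_rk (k n : ℕ) : 2 ^ rk k n ≤ (2 * n + 1) ^ k := by
  unfold rk
  rw [mul_comm, pow_mul]
  exact Nat.pow_le_pow_left (two_pow_size n) k

private theorem ofFn_get {n : ℕ} (x : List Bool) (h : x.length = n) :
    List.ofFn (fun i : Fin n => x.get (i.cast h.symm)) = x := by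
  apply List.ext_get
  · rw [List.length_ofFn, h]
  · intro i h5 h6
    simp

end SP

open SP

theorem sparse_L2 (k : ℕ) (A : Oracle) : Sparse (L2 k A) := by
  classical
  refine ⟨(Polynomial.X + Polynomial.C 1) * (Polynomial.C 4 *
    (Polynomial.C 2 * Polynomial.X + Polynomial.C 1) ^ k), fun m => ?_⟩
  obtain ⟨F, hF⟩ : ∃ F : Finset (List Bool), F = (Finset.range (m + 1)).biUnion fun n =>
      (Finset.univ : Finset (Fin (rk k n + 2) → Bool)).image
        fun f => List.replicate n false ++ true :: List.ofFn f := ⟨_, rfl⟩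
  have hsub : {x : List Bool | x ∈ L2 k A ∧ x.length = m} ⊆ (F : Set (List Bool)) := by
    rintro z ⟨⟨n, x, rfl, hx, -⟩, hm⟩
    rw [hF, Finset.mem_coe, Finset.mem_biUnion]
    refine ⟨n, ?_, Finset.mem_image.2
      ⟨fun i => x.get (i.cast hx.symm), Finset.mem_univ _, ?_⟩⟩
    · rw [List.length_append, List.length_replicate, List.length_cons] at hm
      exact Finset.mem_range.2 (by omega)
    · rw [SP.ofFn_get x hx]
  refine (Set.ncard_le_ncard hsub F.finite_toSet).trans ?_
  rw [Set.ncard_coe_finset, hF]
  refine Finset.card_biUnion_le.trans ?_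
  have h1 : ∀ n ∈ Finset.range (m + 1), ((Finset.univ : Finset (Fin (rk k n + 2) → Bool)).image
      fun f => List.replicate n false ++ true :: List.ofFn f).card ≤ 4 * (2 * m + 1) ^ k := by
    intro n hn
    refine Finset.card_image_le.trans ?_
    rw [Finset.card_univ, Fintype.card_fun, Fintype.card_bool, Fintype.card_fin, pow_add]
    have h2 := SP.two_pow_rk k n
    have h3 : (2 * n + 1) ^ k ≤ (2 * m + 1) ^ k :=
      Nat.pow_le_pow_left (by have := Finset.mem_range.1 hn; omega) k
    omega
  refine (Finset.sum_le_sum h1).trans (le_of_eq ?_)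
  rw [Finset.sum_const, Finset.card_range, smul_eq_mul]
  simp only [Polynomial.eval_add, Polynomial.eval_mul, Polynomial.eval_X, Polynomial.eval_C,
    Polynomial.eval_pow]

/-- instances -/
theorem mem_L2 {k n : ℕ} {A : Oracle} {x : List Bool} (hx : x.length = rk k n + 2) :
    List.replicate n false ++ true :: x ∈ L2 k A ↔ x ∈ Lt n (rk k n) A := by
  constructor
  · rintro ⟨n', x', h, h'⟩
    obtain ⟨rfl, rfl⟩ := SP.inj h
    exact h'
  · intro h
    exact ⟨n, x, rfl, h⟩

theorem mem_L1 {n : ℕ} {A : Oracle} {x : List Bool} (hx : x.length = n + 2) :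
    x ∈ L1 A ↔ x ∈ Lt (2 ^ n) n A := by
  constructor
  · rintro ⟨n', h, h'⟩
    have h1 : n' = n := by omega
    subst h1
    exact h'
  · intro h
    exact ⟨n, hx, h⟩

end Pool.Agent.H583R2.AD
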