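import Pool.Agent.H583R2.AD.Stage
import Pool.Agent.H583R2.AD.Mem1
import Pool.Agent.H583R2.AD.Mem2
import Pool.Agent.H583R2.AD.Spa
import Pool.Agent.H583R2.AD.Acc
import Pool.Agent.H583R2.LH.CorN

/-! The theorems. -/

namespace Pool.Agent.H583R2.AD

open MeasureTheory Pool.Agent.NPC Pool.Agent.H628R3.RO
open Pool.Agent.H583R2.LH (yp FLoc)

namespace SQ

theorem loc_mono {S : Set Oracle} {m n : ℕ} (hmn : m ≤ n) (hS : Loc {x | x.length < m} S) :
    Loc {x | x.length < n} S := by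
  intro A A' h
  exact hS A A' fun x (hx : x.length < m) => h x (show x.length < n from lt_of_lt_of_le hx hmn)

/-- the acceptance conditions, exponential time -/
def acc1 (V : Alg) (q : Polynomial ℕ) (w x : List Bool) (A : Oracle) : Prop :=
  Acc1 V q (pairBits x w) A

/-- some advice of length at most `n - 6` is right -/
def C1 (V : Alg) (q : Polynomial ℕ) (n : ℕ) : Set Oracle :=
  {A | ∃ w : List Bool, w.length ≤ n - 6 ∧ A ∈ Cor (acc1 V q w) (2 ^ n) n}

theorem one1 (V : Alg) (q : Polynomial ℕ) : ∀ᵐ A ∂randomOracle, ∃ n, A ∉ C1 V q n := by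
  apply Pool.Agent.H583R2.LH.seq_zero
  intro ε hε N
  obtain ⟨Q, hQ⟩ := touch_Acc1 V q
  obtain ⟨n, hn, h6, hnum⟩ := num1 Q N
  obtain ⟨W, hW, hWc⟩ := short (n - 6)
  have hC : C1 V q n = {A | ∃ w ∈ W, A ∈ Cor (acc1 V q w) (2 ^ n) n} := by
    ext A
    simp only [C1, Set.mem_ofPred_eq, hW]
  have hfl : ∀ w ∈ W, ∀ x : List Bool, x.length = n + 2 → FLoc {A | acc1 V q w x A} :=
    fun w _ x _ => floc_Acc1 V q _
  refine ⟨n, hn, ?_, ?_⟩
  · rw [hC]
    exact floc_exists W fun w hw => floc_Cor (hfl w hw)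
  · intro S hS
    have h1 : prob (S ∩ {A | ∃ w ∈ W, A ∈ Cor (acc1 V q w) (2 ^ n) n}) ≤ 1 / 2 * prob S := by
      refine stage_main (Q := 2 ^ Q.eval (3 * n + 5)) Nat.one_le_two_pow (by omega) hnum
        (loc_mono (le_of_lt Nat.lt_two_pow_self) hS) W ?_ (acc1 V q) hfl ?_
      · have h2 : 2 ^ n = 32 * 2 ^ (n - 6 + 1) := by
          have h3 : n = 5 + (n - 6 + 1) := by omega
          calc 2 ^ n = 2 ^ (5 + (n - 6 + 1)) := by rw [← h3]
            _ = 32 * 2 ^ (n - 6 + 1) := by rw [pow_add]; norm_num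
        omega
      · intro w hw x A hx hA
        obtain ⟨T, hT, hT'⟩ := hQ _ A hA
        refine ⟨T, hT.trans (Nat.pow_le_pow_right (by norm_num) (eval_mono Q ?_)), hT'⟩
        have hwl := (hW w).1 hw
        rw [length_pairBits, hx]
        omega
    rw [hC]
    have h3 : 0 ≤ prob S := measureReal_nonneg
    linarith

/-- the acceptance conditions, polynomial time -/
def acc2 (V : Alg) (p : Polynomial ℕ) (n : ℕ) (w x : List Bool) (A : Oracle) : Prop :=
  Wit V p (pairBits (List.replicate n false ++ true :: x) w) A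

/-- some advice is right -/
def C2 (k : ℕ) (V : Alg) (p : Polynomial ℕ) (n : ℕ) : Set Oracle :=
  {A | ∃ w : List Bool, w.length ≤ rk (k + 7) n - 6 ∧
    A ∈ Cor (acc2 V p n w) n (rk (k + 7) n)} ∪
  {A | rk (k + 7) n < k * Nat.log 2 (n + 1 + (rk (k + 7) n + 2)) + 6}

theorem one2 (k : ℕ) (V : Alg) (p : Polynomial ℕ) :
    ∀ᵐ A ∂randomOracle, ∃ n, A ∉ C2 k V p n := by
  apply Pool.Agent.H583R2.LH.seq_zero
  intro ε hε N
  obtain ⟨Q, hQ⟩ := touch_Wit V p
  obtain ⟨n, hn, h1, h4, hnum, hlog⟩ := num2 Q k N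
  set r := rk (k + 7) n with hr
  obtain ⟨W, hW, hWc⟩ := short (r - 6)
  have hC : C2 k V p n = {A | ∃ w ∈ W, A ∈ Cor (acc2 V p n w) n r} := by
    ext A
    simp only [C2, Set.mem_union, Set.mem_ofPred_eq, hW]
    constructor
    · rintro (h | h)
      · exact h
      · rw [← hr] at h
        omega
    · exact fun h => Or.inl h
  have hfl : ∀ w ∈ W, ∀ x : List Bool, x.length = r + 2 → FLoc {A | acc2 V p n w x A} :=
    fun w _ x _ => floc_Wit V p _
  have h6 : 6 ≤ r := by omega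
  refine ⟨n, hn, ?_, ?_⟩
  · rw [hC]
    exact floc_exists W fun w hw => floc_Cor (hfl w hw)
  · intro S hS
    have h1 : prob (S ∩ {A | ∃ w ∈ W, A ∈ Cor (acc2 V p n w) n r}) ≤ 1 / 2 * prob S := by
      refine stage_main (Q := Q.eval (8 * (n + r + 4))) h1 h4 hnum hS W ?_ (acc2 V p n) hfl ?_
      · have h2 : 2 ^ r = 32 * 2 ^ (r - 6 + 1) := by
          have h3 : r = 5 + (r - 6 + 1) := by omega
          calc 2 ^ r = 2 ^ (5 + (r - 6 + 1)) := by rw [← h3]
            _ = 32 * 2 ^ (r - 6 + 1) := by rw [pow_add]; norm_num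
        omega
      · intro w hw x A hx hA
        obtain ⟨T, hT, hT'⟩ := hQ _ A hA
        refine ⟨T, hT.trans (eval_mono Q ?_), hT'⟩
        have hwl := (hW w).1 hw
        rw [length_pairBits]
        simp only [List.length_append, List.length_replicate, List.length_cons, hx]
        omega
    rw [hC]
    have h3 : 0 ≤ prob S := measureReal_nonneg
    linarith

end SQ

open SQ

/-- Relative to almost every oracle, some language in `NE` is such that its complement cannot be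
accepted in nondeterministic exponential time with `n - 8` bits of advice. -/
theorem main1 : ∀ᵐ A ∂randomOracle, ∃ L ∈ NE A, Lᶜ ∉ Adv (NEXP A) (fun n => n - 8) := by
  have hc : Countable (Polynomial ℕ) := Pool.Agent.H583R2.LH.CNaux.countable_poly
  have h1 : ∀ᵐ A ∂randomOracle, ∀ V : Alg, ∀ q : Polynomial ℕ, ∃ n, A ∉ C1 V q n := by
    rw [ae_all_iff]
    intro V
    rw [ae_all_iff]
    exact one1 V
  filter_upwards [h1] with A hA
  refine ⟨L1 A, mem_NE A, ?_⟩
  rintro ⟨B, ⟨F, ⟨V, hV⟩, q, -, hB⟩, f, hf, hL⟩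
  obtain ⟨n, hn⟩ := hA V q
  apply hn
  refine ⟨f (n + 2), ?_, fun x hx => ?_⟩
  · have h2 : (f (n + 2)).length ≤ n + 2 - 8 := hf (n + 2)
    omega
  · rw [← mem_L1 hx, ← Set.mem_compl_iff, hL x, hx, hB]
    unfold acc1 Acc1
    simp only [hV, Option.some.injEq]

/-- Relative to almost every oracle, for each `k` some sparse language in `NP` is such that its
complement is not in `NP` with `k log n` bits of advice. -/
theorem main2 : ∀ᵐ A ∂randomOracle, ∀ k : ℕ, ∃ L ∈ NP A, Sparse L ∧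
    Lᶜ ∉ Adv (NP A) (fun n => k * Nat.log 2 n) := by
  have hc : Countable (Polynomial ℕ) := Pool.Agent.H583R2.LH.CNaux.countable_poly
  have h1 : ∀ᵐ A ∂randomOracle, ∀ k : ℕ, ∀ V : Alg, ∀ p : Polynomial ℕ,
      ∃ n, A ∉ C2 k V p n := by
    rw [ae_all_iff]
    intro k
    rw [ae_all_iff]
    intro V
    rw [ae_all_iff]
    exact one2 k V
  filter_upwards [h1] with A hA k
  refine ⟨L2 (k + 7) A, mem_NP (k + 7) A, sparse_L2 (k + 7) A, ?_⟩
  rintro ⟨B, ⟨F, p, ⟨V, hV⟩, hB⟩, f, hf, hL⟩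
  obtain ⟨n, hn⟩ := hA k V p
  apply hn
  by_cases hlog : rk (k + 7) n < k * Nat.log 2 (n + 1 + (rk (k + 7) n + 2)) + 6
  · exact Or.inr hlog
  left
  refine ⟨f (n + 1 + (rk (k + 7) n + 2)), ?_, fun x hx => ?_⟩
  · have h2 : (f (n + 1 + (rk (k + 7) n + 2))).length ≤
        k * Nat.log 2 (n + 1 + (rk (k + 7) n + 2)) := hf (n + 1 + (rk (k + 7) n + 2))
    omega
  · have hlen : (List.replicate n false ++ true :: x).length = n + 1 + (rk (k + 7) n + 2) := by
      simp only [List.length_append, List.length_replicate, List.length_cons, hx]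
      omega
    rw [← mem_L2 hx, ← Set.mem_compl_iff, hL _, hlen, hB]
    unfold acc2 Wit
    simp only [hV, Option.some.injEq]

end Pool.Agent.H583R2.AD
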