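import Pool.Agent.H583R2.AD.Defs

/-! Task MO: the number of hidden strings is spread out (elementary). -/

namespace Pool.Agent.H583R2.AD

private theorem mode_aux {p M : ℝ} {m T : ℕ} (hp0 : 0 < p) (hp : p ≤ 1 / 2) (hM : (m : ℝ) = M)
    (hT : 4 * (T : ℝ) ^ 2 = M) (hT0 : 1 ≤ T) {b : ℕ → ℝ} {s : ℝ} (hb : ∀ k, 0 ≤ b k)
    (hs : ∀ m, ∑ k ∈ Finset.range m, b k ≤ s)
    (h : ∀ k : ℕ, (1 - p) * (k + 1) * b (k + 1) = (M - p * k) * b k) (k : ℕ) :
    (T : ℝ) * (3 / 4 * b k) ≤ s := by
  have hT1 : (1 : ℝ) ≤ T := by exact_mod_cast hT0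
  have hMpos : 0 < M := by nlinarith
  have up : ∀ k : ℕ, (k : ℝ) + 1 ≤ M → b k ≤ b (k + 1) := by
    intro k hk
    have h1 := h k
    have h2 : 0 ≤ ((k : ℝ) + 1) := by positivity
    have h3 : (1 - p) * (k + 1) * (b (k + 1) - b k) = (M - (k + 1) + p) * b k := by
      linear_combination h1
    have h4 : 0 ≤ (M - (k + 1) + p) * b k := mul_nonneg (by linarith) (hb k)
    have h5 : 0 < (1 - p) * ((k : ℝ) + 1) := mul_pos (by linarith) (by positivity)
    rw [← h3] at h4
    have h6 := nonneg_of_mul_nonneg_right h4 h5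
    linarith
  have down : ∀ k : ℕ, M ≤ (k : ℝ) → b (k + 1) ≤ b k := by
    intro k hk
    have h1 := h k
    have h3 : (1 - p) * (k + 1) * (b k - b (k + 1)) = ((k + 1) - M - p) * b k := by
      linear_combination -h1
    have h4 : 0 ≤ ((k + 1) - M - p) * b k := mul_nonneg (by linarith) (hb k)
    have h5 : 0 < (1 - p) * ((k : ℝ) + 1) := mul_pos (by linarith) (by positivity)
    rw [← h3] at h4
    have h6 := nonneg_of_mul_nonneg_right h4 h5
    linarith
  have hlow : ∀ d, d ≤ m → b (m - d) ≤ b m := by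
    intro d
    induction d with
    | zero => intro _; simp
    | succ d ih =>
      intro hd
      have h1 := ih (by omega)
      have h2 := up (m - (d + 1)) (by
        rw [← hM]
        have : m - (d + 1) + 1 ≤ m := by omega
        exact_mod_cast this)
      have h3 : m - (d + 1) + 1 = m - d := by omega
      rw [h3] at h2
      linarith
  have hhigh : ∀ d, b (m + d) ≤ b m := by
    intro d
    induction d with
    | zero => simp
    | succ d ih =>
      have h2 := down (m + d) (by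
        rw [← hM]
        push_cast
        have : (0 : ℝ) ≤ d := by positivity
        linarith)
      rw [← add_assoc]
      linarith
  have hmax : ∀ k, b k ≤ b m := by
    intro k
    rcases le_total k m with hk | hk
    · have := hlow (m - k) (by omega)
      rwa [Nat.sub_sub_self hk] at this
    · obtain ⟨d, rfl⟩ := Nat.exists_eq_add_of_le hk
      exact hhigh d
  have hlb : ∀ j : ℕ, j ≤ T → (M - (j : ℝ) ^ 2) * b m ≤ M * b (m + j) := by
    intro j
    induction j with
    | zero => intro _; simp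
    | succ j ih =>
      intro hj
      have h1 := ih (by omega)
      have hjT : (j : ℝ) + 1 ≤ T := by exact_mod_cast hj
      have hj0 : (0 : ℝ) ≤ j := by positivity
      have h2 := h (m + j)
      push_cast at h2
      rw [hM] at h2
      have hbj := hb (m + j)
      have h3 : (1 - p) * ((M + j + 1) * b (m + j + 1) - (M - j) * b (m + j)) =
          (1 - 2 * p) * j * b (m + j) := by linear_combination h2
      have h4 : 0 ≤ (1 - 2 * p) * j * b (m + j) :=
        mul_nonneg (mul_nonneg (by linarith) hj0) hbj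
      rw [← h3] at h4
      have h5 := nonneg_of_mul_nonneg_right h4 (by linarith : (0 : ℝ) < 1 - p)
      have h6 : (M - j) * b (m + j) ≤ (M + j + 1) * b (m + j + 1) := by linarith
      have hMj : 0 ≤ M - j := by nlinarith
      have h7 : (M - j) * ((M - (j : ℝ) ^ 2) * b m) ≤ (M - j) * (M * b (m + j)) :=
        mul_le_mul_of_nonneg_left h1 hMj
      have h8 : M * ((M - j) * b (m + j)) ≤ M * ((M + j + 1) * b (m + j + 1)) :=
        mul_le_mul_of_nonneg_left h6 hMpos.le
      have h9 : 0 ≤ ((j : ℝ) ^ 3 + (j + 1) ^ 3) * b m := mul_nonneg (by positivity) (hb m)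
      have h10 : (M + j + 1) * ((M - ((j : ℝ) + 1) ^ 2) * b m) ≤
          (M + j + 1) * (M * b (m + j + 1)) := by nlinarith
      have h11 : (0 : ℝ) < M + j + 1 := by positivity
      have h12 := le_of_mul_le_mul_left h10 h11
      push_cast
      rw [← add_assoc]
      exact h12
  have h34 : ∀ j ∈ Finset.range T, 3 / 4 * b k ≤ b (m + j) := by
    intro j hj
    have hj' := Finset.mem_range.mp hj
    have h1 := hlb j hj'.le
    have hjT : (j : ℝ) ≤ T := by exact_mod_cast hj'.le
    have hj0 : (0 : ℝ) ≤ j := by positivity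
    have h2 : (j : ℝ) ^ 2 ≤ (T : ℝ) ^ 2 := by nlinarith
    have h3 : 3 / 4 * M ≤ M - (j : ℝ) ^ 2 := by linarith
    have h4 : 3 / 4 * M * b m ≤ (M - (j : ℝ) ^ 2) * b m :=
      mul_le_mul_of_nonneg_right h3 (hb m)
    have h5 : M * (3 / 4 * b m) ≤ M * b (m + j) := by linarith
    have h6 := le_of_mul_le_mul_left h5 hMpos
    have h7 := hmax k
    linarith
  have h1 := hs (m + T)
  rw [Finset.sum_range_add] at h1
  have h2 : 0 ≤ ∑ x ∈ Finset.range m, b x := Finset.sum_nonneg fun x _ => hb x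
  have h3 : ∑ _j ∈ Finset.range T, 3 / 4 * b k ≤ ∑ j ∈ Finset.range T, b (m + j) :=
    Finset.sum_le_sum h34
  rw [Finset.sum_const, Finset.card_range, nsmul_eq_mul] at h3
  linarith

theorem mode {t r : ℕ} (ht : 1 ≤ t) (hr : 4 ≤ r) {b : ℕ → ℝ} {s : ℝ} (hb : ∀ k, 0 ≤ b k)
    (hs : ∀ m, ∑ k ∈ Finset.range m, b k ≤ s)
    (h : ∀ k, (1 - (1 / 2) ^ t) * (k + 1) * b (k + 1) =
      (1 / 2) ^ t * (2 ^ (t + 2 * r) - k) * b k) (k : ℕ) :
    b k ≤ 4 / 2 ^ r * s := by
  obtain ⟨q, rfl⟩ : ∃ q, r = q + 1 := ⟨r - 1, by omega⟩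
  have hp0 : (0 : ℝ) < (1 / 2) ^ t := by positivity
  have hp : ((1 : ℝ) / 2) ^ t ≤ 1 / 2 := by
    calc ((1 : ℝ) / 2) ^ t ≤ (1 / 2) ^ 1 :=
          pow_le_pow_of_le_one (by norm_num) (by norm_num) ht
      _ = 1 / 2 := by norm_num
  have hpN : ((1 : ℝ) / 2) ^ t * 2 ^ (t + 2 * (q + 1)) = 2 ^ (2 * (q + 1)) := by
    rw [pow_add, ← mul_assoc, ← mul_pow]
    norm_num
  have h1 := mode_aux (p := (1 / 2) ^ t) (M := 2 ^ (2 * (q + 1))) (m := 2 ^ (2 * (q + 1)))
    (T := 2 ^ q) hp0 hp (by push_cast; ring) (by push_cast; ring) Nat.one_le_two_pow hb hs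
    (fun k => by
      rw [h k, ← hpN]
      ring) k
  push_cast at h1
  have h2 : (0 : ℝ) < 2 ^ q := by positivity
  have h3 : (4 : ℝ) / 2 ^ (q + 1) * s = 2 * s / 2 ^ q := by
    rw [pow_succ]
    field_simp
    ring
  rw [h3, le_div_iff₀ h2]
  have h4 := mul_nonneg h2.le (hb k)
  nlinarith

end Pool.Agent.H583R2.AD
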