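import Pool.Agent.H583R2.AD.Main

/-! Sparse languages in `NE`. -/

namespace Pool.Agent.H583R2.AD

open MeasureTheory Pool.Agent.NPC Pool.Agent.H628R3.RO
open Pool.Agent.H583R2.LH (yp FLoc)

/-- the hard sparse languages in `NE` -/
def L3 (k : ℕ) (A : Oracle) : Set (List Bool) :=
  {z | ∃ (n : ℕ) (x : List Bool), z = List.replicate n false ++ true :: x ∧
    x ∈ Lt (2 ^ n) (rk k n) A}

namespace S3

open Pool.Agent.H583R2.LH (lst poly_lst)
open Pool.Agent.H583R2.LH.ML Pool.Agent.H628R3.RO.G2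
open MN (zn zx zn_eq zx_eq z_split u_zn p_zx u_rk)

/-- the test of a certificate -/
def g (k : ℕ) (p : List Bool × List Bool) : Bool :=
  (decide (zn p.1 < p.1.length) && (decide ((zx p.1).length = rk k (zn p.1) + 2) &&
    incr (lst p.2))) &&
   ((lst p.2).all (fun y => decide (y.length = 2 ^ zn p.1 + 2 * rk k (zn p.1))) &&
     decide (2 ^ (2 * rk k (zn p.1)) + valB (zx p.1) <
       (lst p.2).length + 2 ^ (rk k (zn p.1) + 1)))

/-- the number of questions -/
def mq (x y : List Bool) : ℕ := min (2 ^ zn x) y.length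

/-- the questions -/
def q (p : List Bool × List Bool) : List (List Bool) :=
  (lst p.2).flatMap (fun y => asks (mq p.1 y) 0 y)

theorem poly_g (k : ℕ) : Poly (g k) := by
  unfold g
  have h1 : Poly (fun p : List Bool × List Bool => p.1) := Poly.fst Poly.id
  have h2 : Poly (fun p : List Bool × List Bool => lst p.2) := poly_lst.comp (Poly.snd Poly.id)
  have u1 : UPoly (fun p : List Bool × List Bool => zn p.1) := u_zn h1
  have u2 : UPoly (fun p : List Bool × List Bool => rk k (zn p.1)) := u_rk k u1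
  have u3 : UPoly (fun p : List Bool × List Bool => 2 * rk k (zn p.1)) :=
    UPoly.mul (UPoly.const 2) u2
  have h3 : Poly (fun p : List Bool × List Bool => incr (lst p.2)) := poly_incr.comp h2
  have h4 : Poly (fun p : List Bool × List Bool => decide (zn p.1 < p.1.length)) :=
    Poly.decide_lt u1.toPoly (Poly.length h1)
  have h4' : Poly (fun p : List Bool × List Bool =>
      decide ((zx p.1).length = rk k (zn p.1) + 2)) :=
    Poly.decide_eq (Poly.length (p_zx h1)) (Poly.add u2.toPoly (NPC.Poly.const 2))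
  have h5 : Poly (fun p : List Bool × List Bool => 2 ^ zn p.1 + 2 * rk k (zn p.1)) :=
    Poly.add (ME.p_pow2 u1) u3.toPoly
  have h6 : Poly (fun p : List Bool × List Bool => (lst p.2).all
      (fun y => decide (y.length = 2 ^ zn p.1 + 2 * rk k (zn p.1)))) :=
    Poly.all (p := fun (p : List Bool × List Bool) (y : List Bool) =>
      decide (y.length = 2 ^ zn p.1 + 2 * rk k (zn p.1))) h2
      (Poly.decide_eq (Poly.length (Poly.snd Poly.id)) (h5.comp (Poly.fst Poly.id)))
  have h7 : Poly (fun p : List Bool × List Bool =>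
      decide (2 ^ (2 * rk k (zn p.1)) + valB (zx p.1) < (lst p.2).length +
        2 ^ (rk k (zn p.1) + 1))) :=
    Poly.decide_lt (Poly.add (ME.p_pow2 u3) (Poly.valBits (p_zx h1)))
      (Poly.add (Poly.length h2) (ME.p_pow2 (UPoly.add u2 (UPoly.const 1))))
  exact Poly.and (Poly.and h4 (Poly.and h4' h3)) (Poly.and h6 h7)

theorem u_mq {α : Type} [TEnc α] {x y : α → List Bool} (hx : Poly x) (hy : Poly y) :
    UPoly (fun a => mq (x a) (y a)) :=
  UPoly.of_le (m := fun a => mq (x a) (y a)) (Poly.min (ME.p_pow2 (u_zn hx))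
    (Poly.length hy)) (UPoly.length hy) fun _ => min_le_right _ _

theorem poly_q : Poly q := by
  unfold q
  have h2 : Poly (fun p : List Bool × List Bool => lst p.2) := poly_lst.comp (Poly.snd Poly.id)
  have h3 : Poly (fun a : (List Bool × List Bool) × List Bool => a.2) := Poly.snd Poly.id
  have h4 : Poly (fun a : (List Bool × List Bool) × List Bool => a.1.1) :=
    Poly.fst (Poly.fst Poly.id)
  exact Poly.flatMap (F := fun (p : List Bool × List Bool) y => asks (mq p.1 y) 0 y) h2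
    (p_asks (u_mq h4 h3) (UPoly.const 0) h3)

theorem key {k : ℕ} {A : Oracle} {z w : List Bool} :
    ver A (g k) q (pairBits z w) = [true] ↔ zn z < z.length ∧
      (zx z).length = rk k (zn z) + 2 ∧ Inc (lst w) ∧
      (∀ y ∈ lst w, y ∈ Hd (2 ^ zn z) (rk k (zn z)) A) ∧
      2 ^ (2 * rk k (zn z)) + valB (zx z) < (lst w).length + 2 ^ (rk k (zn z) + 1) := by
  rw [ver_iff]
  unfold g q mq
  simp only [Bool.and_eq_true, decide_eq_true_eq, List.all_eq_true, incr_iff, List.mem_flatMap]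
  constructor
  · rintro ⟨⟨⟨h0, h0', h1⟩, h2, h3⟩, h4⟩
    refine ⟨h0, h0', h1, fun y hy => ⟨h2 y hy, fun i hi => ?_⟩, h3⟩
    refine h4 _ ⟨y, hy, ?_⟩
    unfold asks
    refine List.mem_map.2 ⟨i, List.mem_range.2 ?_, rfl⟩
    rw [h2 y hy]
    omega
  · rintro ⟨h0, h0', h1, h2, h3⟩
    refine ⟨⟨⟨h0, h0', h1⟩, fun y hy => (h2 y hy).1, h3⟩, ?_⟩
    rintro u ⟨y, hy, hz⟩
    unfold asks at hz
    obtain ⟨i, hi, rfl⟩ := List.mem_map.1 hz
    rw [List.mem_range] at hi
    exact (h2 y hy).2 i (lt_of_lt_of_le hi (min_le_left _ _))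

theorem ofFn_get {n : ℕ} (x : List Bool) (h : x.length = n) :
    List.ofFn (fun i : Fin n => x.get (i.cast h.symm)) = x := by
  apply List.ext_get
  · rw [List.length_ofFn, h]
  · intro i h5 h6
    simp

theorem bound (n r v m : ℕ) (hv : v < 2 ^ (r + 2)) (hm : m ≤ 2 ^ (2 * r) + v + 1) :
    m * (4 * (2 ^ n + 2 * r) + 1 + 1) + 1 ≤ 2 ^ (3 * (n + 1 + (r + 2) + 1)) := by
  have h1 : n < 2 ^ n := Nat.lt_two_pow_self
  have h1' : r < 2 ^ r := Nat.lt_two_pow_self
  have e1 : 2 ^ (2 * r) = 2 ^ r * 2 ^ r := by rw [two_mul, pow_add]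
  have e2 : 2 ^ (r + 2) = 4 * 2 ^ r := by rw [pow_add]; ring
  have e3 : 2 ^ (3 * (n + 1 + (r + 2) + 1)) =
      4096 * ((2 ^ n * 2 ^ n * 2 ^ n) * (2 ^ r * 2 ^ r * 2 ^ r)) := by
    rw [show 3 * (n + 1 + (r + 2) + 1) = n + n + n + (r + r + r) + 12 by ring, pow_add, pow_add,
      pow_add, pow_add, pow_add, pow_add]
    norm_num
    ring
  rw [e1] at hm
  rw [e2] at hv
  rw [e3]
  generalize 2 ^ n = N at *
  generalize 2 ^ r = R at *
  have h2 : 1 ≤ N := by omega
  have h2' : 1 ≤ R := by omega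
  have h3 : R ≤ R * R := Nat.le_mul_of_pos_left R h2'
  have h4 : m ≤ 5 * (R * R) := by omega
  have h5 : 4 * (N + 2 * r) + 1 + 1 ≤ 14 * (N * R) := by
    have : N ≤ N * R := Nat.le_mul_of_pos_right N h2'
    have : R ≤ N * R := Nat.le_mul_of_pos_left R h2
    omega
  have h6 := Nat.mul_le_mul h4 h5
  have h7 : 5 * (R * R) * (14 * (N * R)) = 70 * (N * (R * R * R)) := by ring
  rw [h7] at h6
  have h8 : 1 ≤ R * R * R := Nat.mul_pos (Nat.mul_pos h2' h2') h2'
  have h9 : N * (R * R * R) ≤ N * N * N * (R * R * R) := by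
    refine Nat.mul_le_mul_right _ ?_
    calc N = N * 1 * 1 := by ring
      _ ≤ N * N * N := Nat.mul_le_mul (Nat.mul_le_mul_left N h2) h2
  have h10 : 1 ≤ N * (R * R * R) := Nat.mul_pos h2 h8
  omega

end S3

open S3 in
theorem mem_NE3 (k : ℕ) (A : Oracle) : L3 k A ∈ NE A := by
  refine ⟨G2.ver A (g k) q, G2.ver_isFP A (poly_g k) poly_q, _, ⟨3, rfl⟩, fun z => ?_⟩
  constructor
  · rintro ⟨n, x, rfl, hx, hlt⟩
    obtain ⟨L, hL, hm, hl⟩ := ME.exists_lst (2 ^ n) (rk k n) A
    obtain ⟨m, hm1⟩ : ∃ m, m = 2 ^ (2 * rk k n) + valB x + 1 - 2 ^ (rk k n + 1) := ⟨_, rfl⟩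
    have hlen : (List.replicate n false ++ true :: x).length = n + 1 + (rk k n + 2) := by
      rw [List.length_append, List.length_replicate, List.length_cons, hx]
      omega
    refine ⟨bits (L.take m), ?_, ?_⟩
    · have h1 : sz (L.take m) ≤
          (L.take m).length * (4 * (2 ^ n + 2 * rk k n) + 1 + 1) + 1 := by
        refine sz_le_length_mul (L.take m) _ fun y hy => ?_
        have := ((hm y).1 (List.mem_of_mem_take hy)).1
        rw [← this]
        exact sz_listBool_le y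
      rw [bits_length]
      refine h1.trans ?_
      simp only [Polynomial.eval_add, Polynomial.eval_mul, Polynomial.eval_X, Polynomial.eval_C,
        Polynomial.eval_one]
      rw [hlen]
      apply bound n (rk k n) (valB x)
      · have := valB_lt x
        rwa [hx] at this
      · rw [List.length_take]
        have hm2 : m ≤ 2 ^ (2 * rk k n) + valB x + 1 := by
          rw [hm1]
          exact Nat.sub_le _ _
        exact (min_le_left _ _).trans hm2
    · rw [key, LH.ML.lst_bits, MN.zn_eq, MN.zx_eq]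
      refine ⟨?_, hx, List.Pairwise.sublist (List.take_sublist _ _) hL,
        fun y hy => (hm y).1 (List.mem_of_mem_take hy), ?_⟩
      · rw [hlen]
        omega
      · rw [List.length_take, hl]
        omega
  · rintro ⟨w, -, h⟩
    rw [key] at h
    obtain ⟨h1, h2, h3, h4, h5⟩ := h
    refine ⟨MN.zn z, MN.zx z, MN.z_split z h1, h2, ?_⟩
    have := ME.length_le_X h3.nodup h4
    omega

theorem sparse_L3 (k : ℕ) (A : Oracle) : Sparse (L3 k A) := by
  classical
  refine ⟨(Polynomial.X + Polynomial.C 1) * (Polynomial.C 4 *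
    (Polynomial.C 2 * Polynomial.X + Polynomial.C 1) ^ k), fun m => ?_⟩
  obtain ⟨F, hF⟩ : ∃ F : Finset (List Bool), F = (Finset.range (m + 1)).biUnion fun n =>
      (Finset.univ : Finset (Fin (rk k n + 2) → Bool)).image
        fun f => List.replicate n false ++ true :: List.ofFn f := ⟨_, rfl⟩
  have hsub : {x : List Bool | x ∈ L3 k A ∧ x.length = m} ⊆ (F : Set (List Bool)) := by
    rintro z ⟨⟨n, x, rfl, hx, -⟩, hm⟩
    rw [hF, Finset.mem_coe, Finset.mem_biUnion]
    refine ⟨n, ?_, Finset.mem_image.2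
      ⟨fun i => x.get (i.cast hx.symm), Finset.mem_univ _, ?_⟩⟩
    · rw [List.length_append, List.length_replicate, List.length_cons] at hm
      exact Finset.mem_range.2 (by omega)
    · rw [S3.ofFn_get x hx]
  refine (Set.ncard_le_ncard hsub F.finite_toSet).trans ?_
  rw [Set.ncard_coe_finset, hF]
  refine Finset.card_biUnion_le.trans ?_
  have h1 : ∀ n ∈ Finset.range (m + 1), ((Finset.univ : Finset (Fin (rk k n + 2) → Bool)).image
      fun f => List.replicate n false ++ true :: List.ofFn f).card ≤ 4 * (2 * m + 1) ^ k := by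
    intro n hn
    refine Finset.card_image_le.trans ?_
    rw [Finset.card_univ, Fintype.card_fun, Fintype.card_bool, Fintype.card_fin, pow_add]
    have h2 := MN.two_pow_rk k n
    have h3 : (2 * n + 1) ^ k ≤ (2 * m + 1) ^ k :=
      Nat.pow_le_pow_left (by have := Finset.mem_range.1 hn; omega) k
    omega
  refine (Finset.sum_le_sum h1).trans (le_of_eq ?_)
  rw [Finset.sum_const, Finset.card_range, smul_eq_mul]
  simp only [Polynomial.eval_add, Polynomial.eval_mul, Polynomial.eval_X, Polynomial.eval_C,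
    Polynomial.eval_pow]

theorem mem_L3 {k n : ℕ} {A : Oracle} {x : List Bool} (_ : x.length = rk k n + 2) :
    List.replicate n false ++ true :: x ∈ L3 k A ↔ x ∈ Lt (2 ^ n) (rk k n) A := by
  constructor
  · rintro ⟨n', x', h, h'⟩
    have h1 : n = n' := by
      have h2 := congrArg MN.zn h
      rwa [MN.zn_eq, MN.zn_eq] at h2
    have h3 : x = x' := by
      have h4 := congrArg MN.zx h
      rwa [MN.zx_eq, MN.zx_eq] at h4
    subst h1 h3
    exact h'
  · intro h
    exact ⟨n, x, rfl, h⟩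

namespace S3

theorem num3 (Q : Polynomial ℕ) (k N : ℕ) : ∃ n ≥ N, 1 ≤ n ∧ 4 ≤ rk (k + 7) n ∧
    8 * 2 ^ Q.eval (8 * (n + rk (k + 7) n + 4)) ≤ 2 ^ 2 ^ n ∧
    k * Nat.log 2 (n + 1 + (rk (k + 7) n + 2)) + 6 ≤ rk (k + 7) n := by
  obtain ⟨n, h1, h2, h3, h4, h5⟩ := num2 (Q + Polynomial.C 3) k N
  refine ⟨n, h1, h2, h3, ?_, h5⟩
  rw [Polynomial.eval_add, Polynomial.eval_C] at h4
  have e : 8 * 2 ^ Q.eval (8 * (n + rk (k + 7) n + 4)) =
      2 ^ (Q.eval (8 * (n + rk (k + 7) n + 4)) + 3) := by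
    rw [pow_add]
    ring
  rw [e]
  exact Nat.pow_le_pow_right (by norm_num) (by omega)

/-- the acceptance conditions, exponential time -/
def acc3 (V : Alg) (q : Polynomial ℕ) (n : ℕ) (w x : List Bool) (A : Oracle) : Prop :=
  Acc1 V q (pairBits (List.replicate n false ++ true :: x) w) A

/-- some advice is right -/
def C3 (k : ℕ) (V : Alg) (q : Polynomial ℕ) (n : ℕ) : Set Oracle :=
  {A | ∃ w : List Bool, w.length ≤ rk (k + 7) n - 6 ∧
    A ∈ Cor (acc3 V q n w) (2 ^ n) (rk (k + 7) n)} ∪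
  {A | rk (k + 7) n < k * Nat.log 2 (n + 1 + (rk (k + 7) n + 2)) + 6}

theorem one3 (k : ℕ) (V : Alg) (q : Polynomial ℕ) :
    ∀ᵐ A ∂randomOracle, ∃ n, A ∉ C3 k V q n := by
  apply Pool.Agent.H583R2.LH.seq_zero
  intro ε hε N
  obtain ⟨Q, hQ⟩ := touch_Acc1 V q
  obtain ⟨n, hn, h1, h4, hnum, hlog⟩ := num3 Q k N
  set r := rk (k + 7) n with hr
  obtain ⟨W, hW, hWc⟩ := short (r - 6)
  have hC : C3 k V q n = {A | ∃ w ∈ W, A ∈ Cor (acc3 V q n w) (2 ^ n) r} := by
    ext A
    simp only [C3, Set.mem_union, Set.mem_ofPred_eq, hW]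
    constructor
    · rintro (h | h)
      · exact h
      · rw [← hr] at h
        omega
    · exact fun h => Or.inl h
  have hfl : ∀ w ∈ W, ∀ x : List Bool, x.length = r + 2 → FLoc {A | acc3 V q n w x A} :=
    fun w _ x _ => floc_Acc1 V q _
  have h6 : 6 ≤ r := by omega
  refine ⟨n, hn, ?_, ?_⟩
  · rw [hC]
    exact floc_exists W fun w hw => floc_Cor (hfl w hw)
  · intro S hS
    have h1 : prob (S ∩ {A | ∃ w ∈ W, A ∈ Cor (acc3 V q n w) (2 ^ n) r}) ≤ 1 / 2 * prob S := by
      refine stage_main (Q := 2 ^ Q.eval (8 * (n + r + 4))) Nat.one_le_two_pow h4 hnum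
        (SQ.loc_mono (le_of_lt Nat.lt_two_pow_self) hS) W ?_ (acc3 V q n) hfl ?_
      · have h2 : 2 ^ r = 32 * 2 ^ (r - 6 + 1) := by
          have h3 : r = 5 + (r - 6 + 1) := by omega
          calc 2 ^ r = 2 ^ (5 + (r - 6 + 1)) := by rw [← h3]
            _ = 32 * 2 ^ (r - 6 + 1) := by rw [pow_add]; norm_num
        omega
      · intro w hw x A hx hA
        obtain ⟨T, hT, hT'⟩ := hQ _ A hA
        refine ⟨T, hT.trans (Nat.pow_le_pow_right (by norm_num) (eval_mono Q ?_)), hT'⟩
        have hwl := (hW w).1 hw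
        rw [length_pairBits]
        simp only [List.length_append, List.length_replicate, List.length_cons, hx]
        omega
    rw [hC]
    have h3 : 0 ≤ prob S := measureReal_nonneg
    linarith

end S3

open S3 in
/-- Relative to almost every oracle, for each `k` some sparse language in `NE` is such that its
complement is not in `NEXP` with `k log n` bits of advice. -/
theorem main3 : ∀ᵐ A ∂randomOracle, ∀ k : ℕ, ∃ L ∈ NE A, Sparse L ∧
    Lᶜ ∉ Adv (NEXP A) (fun n => k * Nat.log 2 n) := by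
  have hc : Countable (Polynomial ℕ) := Pool.Agent.H583R2.LH.CNaux.countable_poly
  have h1 : ∀ᵐ A ∂randomOracle, ∀ k : ℕ, ∀ V : Alg, ∀ q : Polynomial ℕ,
      ∃ n, A ∉ C3 k V q n := by
    rw [ae_all_iff]
    intro k
    rw [ae_all_iff]
    intro V
    rw [ae_all_iff]
    exact one3 k V
  filter_upwards [h1] with A hA k
  refine ⟨L3 (k + 7) A, mem_NE3 (k + 7) A, sparse_L3 (k + 7) A, ?_⟩
  rintro ⟨B, ⟨F, ⟨V, hV⟩, q, -, hB⟩, f, hf, hL⟩
  obtain ⟨n, hn⟩ := hA k V q
  apply hn
  by_cases hlog : rk (k + 7) n < k * Nat.log 2 (n + 1 + (rk (k + 7) n + 2)) + 6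
  · exact Or.inr hlog
  left
  refine ⟨f (n + 1 + (rk (k + 7) n + 2)), ?_, fun x hx => ?_⟩
  · have h2 : (f (n + 1 + (rk (k + 7) n + 2))).length ≤
        k * Nat.log 2 (n + 1 + (rk (k + 7) n + 2)) := hf (n + 1 + (rk (k + 7) n + 2))
    omega
  · have hlen : (List.replicate n false ++ true :: x).length = n + 1 + (rk (k + 7) n + 2) := by
      simp only [List.length_append, List.length_replicate, List.length_cons, hx]
      omega
    rw [← mem_L3 hx, ← Set.mem_compl_iff, hL _, hlen, hB]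
    unfold acc3 Acc1
    simp only [hV, Option.some.injEq]

end Pool.Agent.H583R2.AD
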