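import Pool.Agent.H583R2.AD.Defs

/-! Task SU: telescoping (elementary). -/

namespace Pool.Agent.H583R2.AD

theorem telescope {t r Q : ℕ} (ht : 1 ≤ t) (hr : 4 ≤ r) (hQ : 8 * Q ≤ 2 ^ t)
    {b c d : ℕ → ℝ} {s : ℝ} (hb : ∀ k, 0 ≤ b k) (hc : ∀ k, 0 ≤ c k) (hd : ∀ k, 0 ≤ d k)
    (hcd : ∀ k, c k + d k ≤ b k) (hm : ∀ k, b k ≤ 4 / 2 ^ r * s)
    (h : ∀ k, (1 - (1 / 2) ^ t) * (k + 1) * b (k + 1) =
      (1 / 2) ^ t * (2 ^ (t + 2 * r) - k) * b k)
    (h' : ∀ k, 2 ^ (2 * r) ≤ k + 2 ^ (r + 1) → k < 2 ^ (2 * r) + 2 ^ (r + 1) →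
      (1 / 2) ^ t * (2 ^ (t + 2 * r) - k - Q) * (c k + d k) ≤
        (1 - (1 / 2) ^ t) * (k + 1) * d (k + 1)) :
    ∑ k ∈ Finset.Ico (2 ^ (2 * r) - 2 ^ (r + 1)) (2 ^ (2 * r) + 2 ^ (r + 1)), c k ≤
      8 / 2 ^ r * s := by
  have hA : (16:ℝ) ≤ 2 ^ r := by
    calc (16:ℝ) = 2 ^ 4 := by norm_num
      _ ≤ 2 ^ r := pow_le_pow_right₀ (by norm_num) hr
  have hT : (2:ℝ) ≤ 2 ^ t := by
    calc (2:ℝ) = 2 ^ 1 := by norm_num
      _ ≤ 2 ^ t := pow_le_pow_right₀ (by norm_num) ht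
  have hQ' : 8 * (Q:ℝ) ≤ 2 ^ t := by exact_mod_cast hQ
  have e1 : (2:ℝ) ^ (t + 2 * r) = 2 ^ t * (2 ^ r) ^ 2 := by rw [← pow_mul, ← pow_add]; ring_nf
  have e2 : (2:ℝ) ^ (2 * r) = (2 ^ r) ^ 2 := by rw [← pow_mul]; ring_nf
  have e3 : (2:ℝ) ^ (r + 1) = 2 * 2 ^ r := by rw [pow_succ]; ring
  have hloN : 2 ^ (r + 1) ≤ 2 ^ (2 * r) := Nat.pow_le_pow_right (by norm_num) (by omega)
  have hhiN : 2 ^ (2 * r) + 2 ^ (r + 1) < 2 ^ (t + 2 * r) := by
    have h1 : 2 ^ (r + 1) < 2 ^ (2 * r) := Nat.pow_lt_pow_right (by norm_num) (by omega)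
    have h2 : 2 ^ (2 * r + 1) ≤ 2 ^ (t + 2 * r) := Nat.pow_le_pow_right (by norm_num) (by omega)
    rw [pow_succ] at h2
    omega
  -- the coefficients
  set P : ℝ := (1 / 2) ^ t with hP
  have hP0 : 0 < P := by positivity
  have hP1 : P ≤ 1 / 2 := by
    calc P ≤ (1 / 2) ^ 1 := pow_le_pow_of_le_one (by norm_num) (by norm_num) ht
      _ = 1 / 2 := by norm_num
  have hPc : 0 < 1 - P := by linarith
  have hs : 0 ≤ s := by
    have h1 := (hb 0).trans (hm 0)
    have h2 : (0:ℝ) < 4 / 2 ^ r := by positivity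
    exact nonneg_of_mul_nonneg_right (by linarith) h2
  have hN : ∀ k : ℕ, k < 2 ^ (t + 2 * r) → (0:ℝ) < 2 ^ (t + 2 * r) - k := by
    intro k hk
    have : (k:ℝ) < 2 ^ (t + 2 * r) := by exact_mod_cast hk
    linarith
  rcases (hb 0).eq_or_lt with hb0 | hb0
  · have hz : ∀ k : ℕ, k ≤ 2 ^ (t + 2 * r) → b k = 0 := by
      intro k
      induction k with
      | zero => intro _; exact hb0.symm
      | succ k ih =>
        intro hk
        have h1 := h k
        rw [ih (by omega), mul_zero] at h1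
        have h2 : 0 < (1 - P) * ((k:ℝ) + 1) := by positivity
        rcases mul_eq_zero.1 h1 with h3 | h3
        · linarith
        · exact h3
    have : ∑ k ∈ Finset.Ico (2 ^ (2 * r) - 2 ^ (r + 1)) (2 ^ (2 * r) + 2 ^ (r + 1)), c k = 0 := by
      refine Finset.sum_eq_zero fun k hk => ?_
      rw [Finset.mem_Ico] at hk
      have h1 := hcd k
      rw [hz k (by omega)] at h1
      linarith [hc k, hd k]
    rw [this]
    positivity
  · have hpos : ∀ k : ℕ, k ≤ 2 ^ (t + 2 * r) → 0 < b k := by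
      intro k
      induction k with
      | zero => intro _; exact hb0
      | succ k ih =>
        intro hk
        have h1 := h k
        have h2 : 0 < P * (2 ^ (t + 2 * r) - (k:ℝ)) * b k :=
          mul_pos (mul_pos hP0 (hN k (by omega))) (ih (by omega))
        rw [← h1] at h2
        have h3 : 0 < (1 - P) * ((k:ℝ) + 1) := by positivity
        exact (mul_pos_iff_of_pos_left h3).1 h2
    -- the step
    set W : ℝ := 2 ^ (t + 2 * r) - (2 ^ (2 * r) + 2 ^ (r + 1)) with hW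
    have hW0 : 4 * 2 ^ r * (Q:ℝ) ≤ W := by
      rw [hW, e1, e2, e3]
      nlinarith [mul_nonneg (sub_nonneg.2 hA) (sub_nonneg.2 hT), hQ', hA, hT,
        mul_nonneg (sub_nonneg.2 hQ') (by linarith : (0:ℝ) ≤ 2 ^ r),
        mul_nonneg (mul_nonneg (sub_nonneg.2 hA) (sub_nonneg.2 hT)) (by linarith : (0:ℝ) ≤ 2 ^ r),
        mul_nonneg (sub_nonneg.2 hA) (by linarith : (0:ℝ) ≤ 2 ^ r)]
    have hWp : 0 < W := by
      have : ((2 ^ (2 * r) + 2 ^ (r + 1) : ℕ) : ℝ) < ((2 ^ (t + 2 * r) : ℕ) : ℝ) := by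
        exact_mod_cast hhiN
      push_cast at this
      rw [hW]
      linarith
    have step : ∀ k ∈ Finset.Ico (2 ^ (2 * r) - 2 ^ (r + 1)) (2 ^ (2 * r) + 2 ^ (r + 1)),
        c k / b k ≤ (d (k+1) / b (k+1) - d k / b k) + Q / W := by
      intro k hk
      rw [Finset.mem_Ico] at hk
      have hbk := hpos k (by omega)
      have hbk1 := hpos (k+1) (by omega)
      have hNk := hN k (by omega)
      have h1 := h k
      have h2 := h' k (by omega) hk.2
      have hD : 0 < P * (2 ^ (t + 2 * r) - (k:ℝ)) * b k := mul_pos (mul_pos hP0 hNk) hbk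
      set g := c k / b k with hg
      set e := d k / b k with he
      set e' := d (k+1) / b (k+1) with he'
      have c1 : c k = g * b k := by rw [hg]; field_simp
      have c2 : d k = e * b k := by rw [he]; field_simp
      have c3 : d (k+1) = e' * b (k+1) := by rw [he']; field_simp
      have hge : g + e ≤ 1 := by
        have := hcd k
        rw [c1, c2, ← add_mul] at this
        nlinarith
      have hge0 : 0 ≤ g + e := add_nonneg (div_nonneg (hc k) hbk.le) (div_nonneg (hd k) hbk.le)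
      -- e' D >= D (g+e) - P Q b
      have h3 : P * (2 ^ (t + 2 * r) - (k:ℝ)) * b k * (g + e) - P * Q * b k ≤
          P * (2 ^ (t + 2 * r) - (k:ℝ)) * b k * e' := by
        have h4 : (1 - P) * ((k:ℝ) + 1) * d (k+1) = P * (2 ^ (t + 2 * r) - (k:ℝ)) * b k * e' := by
          rw [c3, ← h1]; ring
        rw [← h4]
        refine le_trans ?_ h2
        rw [c1, c2]
        have h5 : P * Q * b k * (g + e) ≤ P * Q * b k * 1 :=
          mul_le_mul_of_nonneg_left hge (by positivity)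
        nlinarith
      have h6 : P * (2 ^ (t + 2 * r) - (k:ℝ)) * b k * (Q / (2 ^ (t + 2 * r) - (k:ℝ))) =
          P * Q * b k := by
        field_simp
      have h7 : (g + e) - Q / (2 ^ (t + 2 * r) - (k:ℝ)) ≤ e' := by
        have : P * (2 ^ (t + 2 * r) - (k:ℝ)) * b k * ((g + e) - Q / (2 ^ (t + 2 * r) - (k:ℝ))) ≤
            P * (2 ^ (t + 2 * r) - (k:ℝ)) * b k * e' := by
          rw [mul_sub, h6]; exact h3
        exact le_of_mul_le_mul_left this hD
      have h8 : (Q:ℝ) / (2 ^ (t + 2 * r) - (k:ℝ)) ≤ Q / W := by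
        refine div_le_div_of_nonneg_left (by positivity) hWp ?_
        have : (k:ℝ) ≤ 2 ^ (2 * r) + 2 ^ (r + 1) := by exact_mod_cast hk.2.le
        rw [hW]
        linarith
      linarith
    have hsum : ∑ k ∈ Finset.Ico (2 ^ (2 * r) - 2 ^ (r + 1)) (2 ^ (2 * r) + 2 ^ (r + 1)),
        c k / b k ≤ 2 := by
      refine (Finset.sum_le_sum step).trans ?_
      rw [Finset.sum_add_distrib, Finset.sum_const, Nat.card_Ico,
        Finset.sum_Ico_sub (fun k => d k / b k) ((Nat.sub_le _ _).trans (Nat.le_add_right _ _))]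
      have hcard : ((2 ^ (2 * r) + 2 ^ (r + 1) - (2 ^ (2 * r) - 2 ^ (r + 1)) : ℕ) : ℝ) =
          4 * 2 ^ r := by
        have : (2 ^ (2 * r) + 2 ^ (r + 1) - (2 ^ (2 * r) - 2 ^ (r + 1)) : ℕ) = 2 * 2 ^ (r + 1) := by
          omega
        rw [this]
        push_cast
        rw [e3]; ring
      rw [nsmul_eq_mul, hcard]
      have k1 : d (2 ^ (2 * r) + 2 ^ (r + 1)) / b (2 ^ (2 * r) + 2 ^ (r + 1)) ≤ 1 := by
        have hbp := hpos (2 ^ (2 * r) + 2 ^ (r + 1)) hhiN.le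
        rw [div_le_one hbp]
        linarith [hcd (2 ^ (2 * r) + 2 ^ (r + 1)), hc (2 ^ (2 * r) + 2 ^ (r + 1))]
      have k2 : 0 ≤ d (2 ^ (2 * r) - 2 ^ (r + 1)) / b (2 ^ (2 * r) - 2 ^ (r + 1)) :=
        div_nonneg (hd _) (hb _)
      have k3 : 4 * 2 ^ r * ((Q:ℝ) / W) ≤ 1 := by
        rw [← mul_div_assoc, div_le_one hWp]
        exact hW0
      linarith
    calc ∑ k ∈ Finset.Ico (2 ^ (2 * r) - 2 ^ (r + 1)) (2 ^ (2 * r) + 2 ^ (r + 1)), c k
        ≤ ∑ k ∈ Finset.Ico (2 ^ (2 * r) - 2 ^ (r + 1)) (2 ^ (2 * r) + 2 ^ (r + 1)),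
          (4 / 2 ^ r * s) * (c k / b k) := by
          refine Finset.sum_le_sum fun k hk => ?_
          rw [Finset.mem_Ico] at hk
          have hbk := hpos k (by omega)
          have c1 : c k = b k * (c k / b k) := by field_simp
          calc c k = b k * (c k / b k) := c1
            _ ≤ (4 / 2 ^ r * s) * (c k / b k) :=
              mul_le_mul_of_nonneg_right (hm k) (div_nonneg (hc k) hbk.le)
      _ = (4 / 2 ^ r * s) * ∑ k ∈ Finset.Ico (2 ^ (2 * r) - 2 ^ (r + 1))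
          (2 ^ (2 * r) + 2 ^ (r + 1)), (c k / b k) := by rw [Finset.mul_sum]
      _ ≤ (4 / 2 ^ r * s) * 2 := mul_le_mul_of_nonneg_left hsum (by positivity)
      _ = 8 / 2 ^ r * s := by ring

end Pool.Agent.H583R2.AD
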