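import Pool.Agent.H583R2.AD.Cnt

/-! Task TO: accepting computations are not touched by most plants; locality. -/

namespace Pool.Agent.H583R2.AD

open MeasureTheory Pool.Agent.NPC Pool.Agent.H628R3.RO
open Pool.Agent.H583R2.LH (yp FLoc)

theorem disj_Cor_Ovr (acc : List Bool → Oracle → Prop) (t r : ℕ) :
    Disjoint (Cor acc t r) (Ovr acc t r) := by
  rw [Set.disjoint_left]
  rintro A hC ⟨x, hx, ha⟩
  exact (hC x hx.1).1 ha hx

private theorem TO_mono {S : Set Oracle} {N N' : ℕ}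
    (h : Loc {q : List Bool | q.length < N} S) (hN : N ≤ N') :
    Loc {q : List Bool | q.length < N'} S :=
  fun A A' hA => h A A' fun x hx => hA x (lt_of_lt_of_le hx hN)

/-- finitely many local events have a common bound -/
private theorem TO_unif {ι : Type} (W : Finset ι) {E : ι → Set Oracle}
    (h : ∀ w ∈ W, FLoc (E w)) :
    ∃ N : ℕ, ∀ w ∈ W, Loc {q : List Bool | q.length < N} (E w) := by
  classical
  have h' : ∀ w : ι, ∃ N : ℕ, w ∈ W → Loc {q : List Bool | q.length < N} (E w) := by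
    intro w
    by_cases hw : w ∈ W
    · obtain ⟨N, hN⟩ := h w hw
      exact ⟨N, fun _ => hN⟩
    · exact ⟨0, fun h1 => absurd h1 hw⟩
  choose f hf using h'
  exact ⟨W.sup f, fun w hw => TO_mono (hf w hw) (Finset.le_sup hw)⟩

private theorem TO_Lt (t r : ℕ) (x : List Bool) : FLoc {A | x ∈ Lt t r A} :=
  floc_X t r (fun k => x.length = r + 2 ∧ 2 ^ (2 * r) + valB x < k + 2 ^ (r + 1))

/-- a common bound for the finitely many conditions -/
private theorem TO_bound {acc : List Bool → Oracle → Prop} {t r : ℕ}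
    (h : ∀ x : List Bool, x.length = r + 2 → FLoc {A | acc x A}) :
    ∃ N : ℕ, ∀ A A' : Oracle, (∀ q : List Bool, q.length < N → A q = A' q) →
      ∀ x : List Bool, x.length = r + 2 →
        ((acc x A ↔ acc x A') ∧ (x ∈ Lt t r A ↔ x ∈ Lt t r A')) := by
  classical
  have hfin := List.finite_length_eq Bool (r + 2)
  obtain ⟨N1, h1⟩ := TO_unif hfin.toFinset (E := fun x => {A | acc x A}) (fun x hx => by
    rw [Set.Finite.mem_toFinset] at hx
    exact h x hx)
  obtain ⟨N2, h2⟩ := TO_unif hfin.toFinset (E := fun x => {A | x ∈ Lt t r A})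
    (fun x _ => TO_Lt t r x)
  refine ⟨max N1 N2, fun A A' hA x hx => ?_⟩
  have hx' : x ∈ hfin.toFinset := by
    rw [Set.Finite.mem_toFinset]
    exact hx
  exact ⟨TO_mono (h1 x hx') (le_max_left _ _) A A' hA,
    TO_mono (h2 x hx') (le_max_right _ _) A A' hA⟩

theorem floc_Cor {acc : List Bool → Oracle → Prop} {t r : ℕ}
    (h : ∀ x : List Bool, x.length = r + 2 → FLoc {A | acc x A}) : FLoc (Cor acc t r) := by
  obtain ⟨N, hN⟩ := TO_bound (t := t) h
  refine ⟨N, fun A A' hA => ?_⟩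
  show (∀ x : List Bool, x.length = r + 2 → (acc x A ↔ x ∉ Lt t r A)) ↔
    (∀ x : List Bool, x.length = r + 2 → (acc x A' ↔ x ∉ Lt t r A'))
  refine forall₂_congr fun x hx => ?_
  obtain ⟨h1, h2⟩ := hN A A' hA x hx
  exact iff_congr h1 (not_congr h2)

theorem floc_Ovr {acc : List Bool → Oracle → Prop} {t r : ℕ}
    (h : ∀ x : List Bool, x.length = r + 2 → FLoc {A | acc x A}) : FLoc (Ovr acc t r) := by
  obtain ⟨N, hN⟩ := TO_bound (t := t) h
  refine ⟨N, fun A A' hA => ?_⟩
  show (∃ x : List Bool, x ∈ Lt t r A ∧ acc x A) ↔ (∃ x : List Bool, x ∈ Lt t r A' ∧ acc x A')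
  refine exists_congr fun x => ?_
  constructor
  · rintro ⟨hx, ha⟩
    obtain ⟨h1, h2⟩ := hN A A' hA x hx.1
    exact ⟨h2.1 hx, h1.1 ha⟩
  · rintro ⟨hx, ha⟩
    obtain ⟨h1, h2⟩ := hN A A' hA x hx.1
    exact ⟨h2.2 hx, h1.2 ha⟩

/-- a finite union of local events is local -/
theorem floc_exists {ι : Type} (W : Finset ι) {E : ι → Set Oracle} (h : ∀ w ∈ W, FLoc (E w)) :
    FLoc {A | ∃ w ∈ W, A ∈ E w} := by
  obtain ⟨N, hN⟩ := TO_unif W h
  refine ⟨N, fun A A' hA => ?_⟩
  show (∃ w ∈ W, A ∈ E w) ↔ (∃ w ∈ W, A' ∈ E w)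
  exact exists_congr fun w => and_congr_right fun hw => hN w hw A A' hA

/-- every number below `2 ^ m` is the value of a string of length `m` -/
private theorem TO_surj (m : ℕ) : ∀ n : ℕ, n < 2 ^ m → ∃ x : List Bool, x.length = m ∧ valB x = n := by
  induction m with
  | zero =>
    intro n hn
    exact ⟨[], rfl, by rw [valB_nil]; simp at hn; omega⟩
  | succ m ih =>
    intro n hn
    obtain ⟨x, hx, hv⟩ := ih (n / 2) (by rw [pow_succ] at hn; omega)
    refine ⟨decide (n % 2 = 1) :: x, by rw [List.length_cons, hx], ?_⟩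
    rw [valB_cons, hv]
    by_cases h2 : n % 2 = 1
    · rw [if_pos (by simpa using h2)]
      omega
    · rw [if_neg (by simpa using h2)]
      omega

/-- the string to whose region the string belongs -/
private def TO_own (q : List Bool) : List Bool :=
  match Pool.Agent.H583R2.LH.prs q with
  | none => []
  | some (y, _) => y

private theorem TO_own_yp (y : List Bool) (i : ℕ) : TO_own (yp y i) = y := by
  unfold TO_own
  rw [Pool.Agent.H583R2.LH.prs_yp]

/-- the touch condition -/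
theorem touch_Ovr {acc : List Bool → Oracle → Prop} {t r Q : ℕ}
    (h : ∀ (x : List Bool) (A : Oracle), x.length = r + 2 → acc x A →
      ∃ T : Finset (List Bool), T.card ≤ Q ∧ ∀ A' : Oracle, (∀ q ∈ T, A' q = A q) → acc x A')
    {A : Oracle} (hA : A ∈ Cor acc t r ∪ Ovr acc t r) (hI : A ∈ InI t r) :
    ∃ T : Finset (List Bool), T.card ≤ Q ∧
      ∀ y : List Bool, y.length = t + 2 * r → y ∉ T → y ∉ Hd t r A →
        plant (J t y) A ∈ Ovr acc t r := by
  classical
  obtain ⟨x, hx, ha, hv⟩ : ∃ x : List Bool, x.length = r + 2 ∧ acc x A ∧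
      2 ^ (2 * r) + valB x ≤ X t r A + 2 ^ (r + 1) := by
    rcases hA with hA | hA
    · obtain ⟨hI1, hI2⟩ := hI
      obtain ⟨x, hx, hv⟩ := TO_surj (r + 2) (X t r A + 2 ^ (r + 1) - 2 ^ (2 * r)) (by
        rw [pow_succ 2 (r + 1)]
        have : 0 < 2 ^ (r + 1) := by positivity
        omega)
      refine ⟨x, hx, (hA x hx).2 ?_, by omega⟩
      rintro ⟨-, h2⟩
      omega
    · obtain ⟨x, hx, ha⟩ := hA
      exact ⟨x, hx.1, ha, hx.2.le⟩
  obtain ⟨T, hT, hT2⟩ := h x A hx ha
  refine ⟨T.image TO_own, Finset.card_image_le.trans hT, fun y hy hyT hyH => ?_⟩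
  refine ⟨x, ⟨hx, ?_⟩, hT2 _ fun q hq => ?_⟩
  · rw [X_plant hy hyH]
    omega
  · unfold plant
    rw [if_neg]
    intro hqJ
    unfold J at hqJ
    rw [Finset.mem_image] at hqJ
    obtain ⟨i, -, hi⟩ := hqJ
    apply hyT
    rw [Finset.mem_image]
    exact ⟨q, hq, by rw [← hi, TO_own_yp]⟩

end Pool.Agent.H583R2.AD
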