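import Pool.Agent.H583R2.AD.Rat
import Pool.Agent.H583R2.AD.Mode
import Pool.Agent.H583R2.AD.Tel
import Pool.Agent.H583R2.AD.Cheb
import Pool.Agent.H583R2.AD.Tou

/-! Task UN: one stage. -/

namespace Pool.Agent.H583R2.AD

open MeasureTheory Pool.Agent.NPC Pool.Agent.H628R3.RO
open Pool.Agent.H583R2.LH (yp FLoc)

private theorem UN_nonneg (S : Set Oracle) : 0 ≤ prob S := measureReal_nonneg

private theorem UN_mono {S S' : Set Oracle} (h : S ⊆ S') : prob S ≤ prob S' :=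
  measureReal_mono h

private theorem UN_union_le (S S' : Set Oracle) : prob (S ∪ S') ≤ prob S + prob S' :=
  measureReal_union_le _ _

private theorem UN_finite (N : ℕ) : {q : List Bool | q.length < N}.Finite :=
  List.finite_length_lt Bool N

private theorem UN_meas {S : Set Oracle} (h : FLoc S) : MeasurableSet S := by
  obtain ⟨N, hN⟩ := h
  exact measurableSet_of_loc (UN_finite N) hN

private theorem UN_sum (t r : ℕ) (S : Set Oracle) (hS : MeasurableSet S) (m : ℕ) :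
    ∑ k ∈ Finset.range m, prob (S ∩ {A | X t r A = k}) ≤ prob S := by
  have hX : ∀ k, MeasurableSet {A | X t r A = k} := fun k => UN_meas (floc_X t r (fun x => x = k))
  have h1 : prob (⋃ k ∈ Finset.range m, S ∩ {A | X t r A = k}) =
      ∑ k ∈ Finset.range m, prob (S ∩ {A | X t r A = k}) := by
    refine measureReal_biUnion_finset ?_ (fun k _ => hS.inter (hX k))
    intro a _ b _ hab
    rw [Function.onFun, Set.disjoint_left]
    rintro A ⟨-, h2⟩ ⟨-, h3⟩
    exact hab (h2.symm.trans h3)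
  rw [← h1]
  refine UN_mono ?_
  intro A hA
  simp only [Set.mem_iUnion] at hA
  obtain ⟨k, -, h2, -⟩ := hA
  exact h2

private theorem UN_one {t r Q : ℕ} (ht : 1 ≤ t) (hr : 4 ≤ r) (hQ : 8 * Q ≤ 2 ^ t)
    {S : Set Oracle} (hS : Loc {q | q.length < t} S) (acc : List Bool → Oracle → Prop)
    (hloc : ∀ x : List Bool, x.length = r + 2 → FLoc {A | acc x A})
    (h : ∀ (x : List Bool) (A : Oracle), x.length = r + 2 → acc x A →
      ∃ T : Finset (List Bool), T.card ≤ Q ∧ ∀ A' : Oracle, (∀ q ∈ T, A' q = A q) →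
        acc x A') :
    prob (S ∩ Cor acc t r ∩ InI t r) ≤ 8 / 2 ^ r * prob S := by
  have hSm : MeasurableSet S := measurableSet_of_loc (UN_finite t) hS
  have hX : ∀ k, MeasurableSet {A | X t r A = k} := fun k => UN_meas (floc_X t r (fun x => x = k))
  have hC : MeasurableSet (Cor acc t r) := UN_meas (floc_Cor hloc)
  have hO : MeasurableSet (Ovr acc t r) := UN_meas (floc_Ovr hloc)
  have hdis := disj_Cor_Ovr acc t r
  have hadd : ∀ k, prob (S ∩ (Cor acc t r ∪ Ovr acc t r) ∩ {A | X t r A = k}) =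
      prob (S ∩ Cor acc t r ∩ {A | X t r A = k}) + prob (S ∩ Ovr acc t r ∩ {A | X t r A = k}) := by
    intro k
    have e : S ∩ (Cor acc t r ∪ Ovr acc t r) ∩ {A | X t r A = k} =
        (S ∩ Cor acc t r ∩ {A | X t r A = k}) ∪ (S ∩ Ovr acc t r ∩ {A | X t r A = k}) := by
      rw [Set.inter_union_distrib_left, Set.union_inter_distrib_right]
    rw [e]
    refine measureReal_union ?_ ((hSm.inter hO).inter (hX k))
    rw [Set.disjoint_left]
    rintro A ⟨⟨-, h1⟩, -⟩ ⟨⟨-, h2⟩, -⟩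
    exact Set.disjoint_left.1 hdis h1 h2
  have hm := mode ht hr (b := fun k => prob (S ∩ {A | X t r A = k})) (s := prob S)
    (fun k => UN_nonneg _) (UN_sum t r S hSm) (fun k => ratio hS)
  have htel := telescope ht hr hQ (b := fun k => prob (S ∩ {A | X t r A = k}))
    (c := fun k => prob (S ∩ Cor acc t r ∩ {A | X t r A = k}))
    (d := fun k => prob (S ∩ Ovr acc t r ∩ {A | X t r A = k})) (s := prob S)
    (fun k => UN_nonneg _) (fun k => UN_nonneg _) (fun k => UN_nonneg _)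
    (fun k => by
      rw [← hadd k]
      refine UN_mono ?_
      rintro A ⟨⟨h1, -⟩, h2⟩
      exact ⟨h1, h2⟩) hm (fun k => ratio hS) (fun k h1 h2 => by
      have h3 := step (t := t) (r := r) (k := k) (Q := Q) hS (floc_Cor hloc) (floc_Ovr hloc)
        (fun A hA hk => touch_Ovr h hA (by
          refine ⟨?_, ?_⟩
          · rw [hk]; exact h1
          · rw [hk]; exact h2))
      rw [hadd k] at h3
      exact h3)
  refine le_trans ?_ htel
  have hsub : S ∩ Cor acc t r ∩ InI t r ⊆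
      ⋃ k ∈ Finset.Ico (2 ^ (2 * r) - 2 ^ (r + 1)) (2 ^ (2 * r) + 2 ^ (r + 1)),
        S ∩ Cor acc t r ∩ {A | X t r A = k} := by
    rintro A ⟨h1, h2, h3⟩
    simp only [Set.mem_iUnion]
    refine ⟨X t r A, ?_, h1, rfl⟩
    rw [Finset.mem_Ico]
    omega
  exact (UN_mono hsub).trans (measureReal_biUnion_finset_le _ _)

theorem stage_main {t r Q : ℕ} (ht : 1 ≤ t) (hr : 4 ≤ r) (hQ : 8 * Q ≤ 2 ^ t) {S : Set Oracle}
    (hS : Loc {q | q.length < t} S) {ι : Type} (W : Finset ι) (hW : 32 * W.card ≤ 2 ^ r)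
    (acc : ι → List Bool → Oracle → Prop)
    (hloc : ∀ w ∈ W, ∀ x : List Bool, x.length = r + 2 → FLoc {A | acc w x A})
    (h : ∀ w ∈ W, ∀ (x : List Bool) (A : Oracle), x.length = r + 2 → acc w x A →
      ∃ T : Finset (List Bool), T.card ≤ Q ∧ ∀ A' : Oracle, (∀ q ∈ T, A' q = A q) →
        acc w x A') :
    prob (S ∩ {A | ∃ w ∈ W, A ∈ Cor (acc w) t r}) ≤ 1 / 2 * prob S := by
  have hsub : S ∩ {A | ∃ w ∈ W, A ∈ Cor (acc w) t r} ⊆
      (S ∩ (InI t r)ᶜ) ∪ ⋃ w ∈ W, S ∩ Cor (acc w) t r ∩ InI t r := by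
    rintro A ⟨h1, w, hw, h2⟩
    by_cases h3 : A ∈ InI t r
    · right
      simp only [Set.mem_iUnion]
      exact ⟨w, hw, ⟨h1, h2⟩, h3⟩
    · left
      exact ⟨h1, h3⟩
  have h1 : prob (S ∩ {A | ∃ w ∈ W, A ∈ Cor (acc w) t r}) ≤
      prob (S ∩ (InI t r)ᶜ) + ∑ w ∈ W, prob (S ∩ Cor (acc w) t r ∩ InI t r) :=
    ((UN_mono hsub).trans (UN_union_le _ _)).trans
      (add_le_add le_rfl (measureReal_biUnion_finset_le _ _))
  have h2 : prob (S ∩ (InI t r)ᶜ) ≤ 1 / 4 * prob S := cheb (by omega) hS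
  have h3 : ∑ w ∈ W, prob (S ∩ Cor (acc w) t r ∩ InI t r) ≤ W.card • (8 / 2 ^ r * prob S) :=
    Finset.sum_le_card_nsmul _ _ _ fun w hw => UN_one ht hr hQ hS (acc w) (hloc w hw) (h w hw)
  have h4 : W.card • (8 / 2 ^ r * prob S) ≤ 1 / 4 * prob S := by
    rw [nsmul_eq_mul, ← mul_assoc]
    refine mul_le_mul_of_nonneg_right ?_ (UN_nonneg _)
    have h5 : (32 : ℝ) * W.card ≤ 2 ^ r := by exact_mod_cast hW
    have h6 : (0 : ℝ) < 2 ^ r := by positivity
    rw [mul_div_assoc', div_le_iff₀ h6]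
    linarith
  linarith

end Pool.Agent.H583R2.AD
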